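import Mathlib

set_option autoImplicit false

namespace Pool.Agent.Helper88.GF

/-- A context-free grammar: its start symbol and the list of its productions.  Nonterminals are
the letters `Sum.inl A` and terminals the letters `Sum.inr a`, with `A a : ℕ`. -/
abbrev Gram : Type := ℕ × List (ℕ × List (ℕ ⊕ ℕ))

/-- No production has an empty right-hand side. -/
def LambdaFree (G : Gram) : Prop := ∀ p ∈ G.2, p.2 ≠ []

/-- One derivation step of the grammar `G`. -/
inductive Step (G : Gram) : List (ℕ ⊕ ℕ) → List (ℕ ⊕ ℕ) → Prop
  | mk (A : ℕ) (β u v : List (ℕ ⊕ ℕ)) (h : (A, β) ∈ G.2) :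
      Step G (u ++ Sum.inl A :: v) (u ++ β ++ v)

/-- The language generated by `G`. -/
def Lang (G : Gram) : Set (List ℕ) :=
  {w | Relation.ReflTransGen (Step G) [Sum.inl G.1] (w.map Sum.inr)}

/-- `G'` is an interpretation of `G`: a letter-to-letter map sending nonterminals to nonterminals
and terminals to terminals maps the start symbol of `G'` to that of `G` and every production of
`G'` to a production of `G`. -/
def IsInterp (G' G : Gram) : Prop :=
  ∃ f g : ℕ → ℕ, f G'.1 = G.1 ∧ ∀ p ∈ G'.2, (f p.1, p.2.map (Sum.map f g)) ∈ G.2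

/-- The grammatical family of `G`: the languages of its interpretations. -/
def Fam (G : Gram) : Set (Set (List ℕ)) := {L | ∃ G' : Gram, IsInterp G' G ∧ Lang G' = L}

end Pool.Agent.Helper88.GF
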