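import Mathlib
import Pool.Agent.Helper88.GF.Defs

set_option autoImplicit false

namespace Pool.Agent.Helper88.GF

open Sum

/-- sentential form `α` generates the terminal word `w` (parse forest semantics) -/
inductive GenL {N T : Type} (P : Set (N × List (N ⊕ T))) : List (N ⊕ T) → List T → Prop
  | nil : GenL P [] []
  | term (a : T) (β : List (N ⊕ T)) (w : List T) (h : GenL P β w) : GenL P (inr a :: β) (a :: w)
  | nt (A : N) (α β : List (N ⊕ T)) (u w : List T) (hA : (A, α) ∈ P) (h₁ : GenL P α u)
      (h₂ : GenL P β w) : GenL P (inl A :: β) (u ++ w)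

section

variable {N T : Type} {P : Set (N × List (N ⊕ T))}

lemma GenL.mono {P' : Set (N × List (N ⊕ T))} (h : P ⊆ P') {α : List (N ⊕ T)} {w : List T}
    (hg : GenL P α w) : GenL P' α w := by
  induction hg with
  | nil => exact .nil
  | term a β w _ ih => exact .term a β w ih
  | nt A α β u w hA _ _ ih₁ ih₂ => exact .nt A α β u w (h hA) ih₁ ih₂

lemma GenL.append {α β : List (N ⊕ T)} {u w : List T} (h₁ : GenL P α u) (h₂ : GenL P β w) :
    GenL P (α ++ β) (u ++ w) := by
  induction h₁ with
  | nil => exact h₂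
  | term a γ v _ ih => exact .term a _ _ ih
  | nt A γ δ v v' hA h₁ _ _ ih₂ =>
    rw [List.append_assoc]
    exact .nt A γ _ v _ hA h₁ ih₂

lemma GenL.split {α β : List (N ⊕ T)} {w : List T} (h : GenL P (α ++ β) w) :
    ∃ u v, w = u ++ v ∧ GenL P α u ∧ GenL P β v := by
  induction α generalizing w with
  | nil => exact ⟨[], w, rfl, .nil, h⟩
  | cons x α ih =>
    rw [List.cons_append] at h
    cases h with
    | term a _ w h =>
      obtain ⟨u, v, rfl, hu, hv⟩ := ih h
      exact ⟨a :: u, v, rfl, .term a α u hu, hv⟩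
    | nt A γ _ u' w hA h₁ h₂ =>
      obtain ⟨u, v, rfl, hu, hv⟩ := ih h₂
      exact ⟨u' ++ u, v, by rw [List.append_assoc], .nt A γ α u' u hA h₁ hu, hv⟩

lemma genL_append_iff {α β : List (N ⊕ T)} {w : List T} :
    GenL P (α ++ β) w ↔ ∃ u v, w = u ++ v ∧ GenL P α u ∧ GenL P β v :=
  ⟨GenL.split, fun ⟨_, _, h, h₁, h₂⟩ => h ▸ h₁.append h₂⟩

lemma genL_terminals (w : List T) : GenL P (w.map inr) w := by
  induction w with
  | nil => exact .nil
  | cons a w ih => exact .term a _ _ ih

lemma genL_map_inr_iff {u w : List T} : GenL P (u.map inr) w ↔ w = u := by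
  constructor
  · intro h
    induction u generalizing w with
    | nil => cases h; rfl
    | cons a u ih =>
      rw [List.map_cons] at h
      cases h with
      | term a _ w h => rw [ih h]
  · rintro rfl; exact genL_terminals _

lemma genL_term_iff {a : T} {β : List (N ⊕ T)} {w : List T} :
    GenL P (inr a :: β) w ↔ ∃ v, w = a :: v ∧ GenL P β v := by
  constructor
  · intro h
    cases h with
    | term a _ w h => exact ⟨w, rfl, h⟩
  · rintro ⟨v, rfl, h⟩; exact .term _ _ _ h

lemma genL_nt_iff {A : N} {β : List (N ⊕ T)} {w : List T} :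
    GenL P (inl A :: β) w ↔ ∃ α u v, w = u ++ v ∧ (A, α) ∈ P ∧ GenL P α u ∧ GenL P β v := by
  constructor
  · intro h
    cases h with
    | nt A α _ u w hA h₁ h₂ => exact ⟨α, u, w, rfl, hA, h₁, h₂⟩
  · rintro ⟨α, u, v, rfl, hA, h₁, h₂⟩; exact .nt _ _ _ _ _ hA h₁ h₂

lemma genL_single_iff {A : N} {w : List T} :
    GenL P [inl A] w ↔ ∃ α, (A, α) ∈ P ∧ GenL P α w := by
  rw [genL_nt_iff]
  constructor
  · rintro ⟨α, u, v, rfl, hA, h₁, h₂⟩
    cases h₂
    rw [List.append_nil]
    exact ⟨α, hA, h₁⟩
  · rintro ⟨α, hA, h⟩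
    exact ⟨α, w, [], by simp, hA, h, .nil⟩

lemma genL_nil_iff {w : List T} : GenL P [] w ↔ w = [] := by
  constructor
  · intro h; cases h; rfl
  · rintro rfl; exact .nil

/-- images of productions under letter maps -/
lemma GenL.map {N' T' : Type} {P' : Set (N' × List (N' ⊕ T'))} (f : N → N') (g : T → T')
    (hP : ∀ A β, (A, β) ∈ P → (f A, β.map (Sum.map f g)) ∈ P') {α : List (N ⊕ T)} {w : List T}
    (h : GenL P α w) : GenL P' (α.map (Sum.map f g)) (w.map g) := by
  induction h with
  | nil => exact .nil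
  | term a β w _ ih => exact .term _ _ _ ih
  | nt A α β u w hA _ _ ih₁ ih₂ =>
    rw [List.map_append]
    exact .nt _ _ _ _ _ (hP A α hA) ih₁ ih₂

/-- converse for images under maps injective on nonterminals -/
lemma GenL.of_map {N' T' : Type} (f : N → N') (g : T → T') (hf : Function.Injective f)
    {α : List (N ⊕ T)} {w : List T'}
    (h : GenL ((fun p : N × List (N ⊕ T) => (f p.1, p.2.map (Sum.map f g))) '' P)
      (α.map (Sum.map f g)) w) : ∃ v, w = v.map g ∧ GenL P α v := by
  generalize hα : α.map (Sum.map f g) = α' at h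
  induction h generalizing α with
  | nil =>
    rw [List.map_eq_nil_iff] at hα
    subst hα
    exact ⟨[], rfl, .nil⟩
  | term a β w _ ih =>
    cases α with
    | nil => simp at hα
    | cons x α =>
      rw [List.map_cons, List.cons.injEq] at hα
      obtain ⟨h1, h2⟩ := hα
      cases x with
      | inl A => simp at h1
      | inr b =>
        rw [Sum.map_inr, inr.injEq] at h1
        subst h1
        obtain ⟨v, rfl, hv⟩ := ih h2
        exact ⟨b :: v, rfl, .term _ _ _ hv⟩
  | nt A γ β u w hA _ _ ih₁ ih₂ =>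
    cases α with
    | nil => simp at hα
    | cons x α =>
      rw [List.map_cons, List.cons.injEq] at hα
      obtain ⟨h1, h2⟩ := hα
      cases x with
      | inr b => simp at h1
      | inl B =>
        rw [Sum.map_inl, inl.injEq] at h1
        subst h1
        obtain ⟨⟨C, δ⟩, hC, he⟩ := hA
        rw [Prod.mk.injEq] at he
        obtain ⟨hf1, hf2⟩ := he
        have := hf hf1
        simp only at this
        subst this
        obtain ⟨v₁, rfl, hv₁⟩ := ih₁ hf2
        obtain ⟨v₂, rfl, hv₂⟩ := ih₂ h2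
        exact ⟨v₁ ++ v₂, by rw [List.map_append], .nt _ _ _ _ _ hC hv₁ hv₂⟩

end

/-- productions of a grammar as a set -/
def prods (G : Gram) : Set (ℕ × List (ℕ ⊕ ℕ)) := {p | p ∈ G.2}

lemma genL_of_step {G : Gram} {α β : List (ℕ ⊕ ℕ)} {w : List ℕ} (h : Step G α β)
    (hg : GenL (prods G) β w) : GenL (prods G) α w := by
  cases h with
  | mk A γ u v hA =>
    obtain ⟨x, y, rfl, h₁, h₂⟩ := hg.split
    obtain ⟨x₁, x₂, rfl, h₃, h₄⟩ := h₁.split
    rw [List.append_assoc]
    exact h₃.append (.nt A γ v x₂ y hA h₄ h₂)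

lemma steps_of_genL {G : Gram} {α : List (ℕ ⊕ ℕ)} {w : List ℕ} (h : GenL (prods G) α w) :
    Relation.ReflTransGen (Step G) α (w.map inr) := by
  have ctx : ∀ (u v : List (ℕ ⊕ ℕ)) {x y : List (ℕ ⊕ ℕ)}, Relation.ReflTransGen (Step G) x y →
      Relation.ReflTransGen (Step G) (u ++ x ++ v) (u ++ y ++ v) := by
    intro u v x y hxy
    induction hxy with
    | refl => exact .refl
    | tail _ hs ih =>
      refine ih.tail ?_
      cases hs with
      | mk A β u' v' hA =>
        have h1 : u ++ (u' ++ inl A :: v') ++ v = (u ++ u') ++ inl A :: (v' ++ v) := by simp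
        have h2 : u ++ (u' ++ β ++ v') ++ v = (u ++ u') ++ β ++ (v' ++ v) := by simp
        rw [h1, h2]
        exact .mk A β _ _ hA
  induction h with
  | nil => exact .refl
  | term a β w _ ih =>
    have := ctx [inr a] [] ih
    simpa using this
  | nt A γ β u w hA _ _ ih₁ ih₂ =>
    have s1 : Step G (inl A :: β) (γ ++ β) := by
      have := Step.mk (G := G) A γ [] β hA
      simpa using this
    have s2 := ctx [] β ih₁
    have s3 := ctx (u.map inr) [] ih₂
    simp only [List.nil_append, List.append_nil] at s2 s3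
    rw [List.map_append]
    exact (Relation.ReflTransGen.head s1 s2).trans s3

lemma mem_Lang_iff {G : Gram} {w : List ℕ} : w ∈ Lang G ↔ GenL (prods G) [inl G.1] w := by
  constructor
  · intro h
    have h' : Relation.ReflTransGen (Step G) [inl G.1] (w.map inr) := h
    generalize hα : [inl G.1] = α at h' ⊢
    clear hα
    induction h' using Relation.ReflTransGen.head_induction_on with
    | refl => exact genL_terminals w
    | head hs _ ih => exact genL_of_step hs ih
  · exact steps_of_genL

/-- finite set of productions over countable nonterminals gives a grammar -/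
lemma exists_gram {N : Type} (f : N → ℕ) (hf : Function.Injective f) (P : Set (N × List (N ⊕ ℕ)))
    (hP : P.Finite) (S : N) : ∃ G : Gram, G.1 = f S ∧
      (∀ p, p ∈ G.2 ↔ ∃ q ∈ P, (f q.1, q.2.map (Sum.map f id)) = p) ∧
      ∀ w, w ∈ Lang G ↔ GenL P [inl S] w := by
  classical
  let Q : Set (ℕ × List (ℕ ⊕ ℕ)) :=
    (fun p : N × List (N ⊕ ℕ) => (f p.1, p.2.map (Sum.map f id))) '' P
  have hQ : Q.Finite := hP.image _
  refine ⟨(f S, hQ.toFinset.toList), rfl, ?_, ?_⟩
  · intro p
    simp [Q, Set.mem_image]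
  · intro w
    rw [mem_Lang_iff]
    have e : prods (f S, hQ.toFinset.toList) = Q := by
      ext p; simp [prods]
    rw [e]
    constructor
    · intro h
      obtain ⟨v, hv, hg⟩ := GenL.of_map (P := P) (α := [inl S]) f id hf h
      rw [List.map_id] at hv
      rw [hv]; exact hg
    · intro h
      have := h.map (P' := Q) f id (fun A β hA => ⟨(A, β), hA, rfl⟩)
      simpa using this

end Pool.Agent.Helper88.GF
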