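import Mathlib
import Pool.Agent.Helper88.GF.Gen

set_option autoImplicit false

namespace Pool.Agent.Helper88.GF

open Sum

abbrev Pr : Type := ℕ × List (ℕ ⊕ ℕ)
abbrev St : Type := List (ℕ ⊕ ℕ)
abbrev NT2 : Type := ℕ ⊕ (St × ℕ × St)

/-- right-linear shape -/
def RL (p : List (ℕ ⊕ ℕ)) : Prop :=
  (∃ u : List ℕ, p = u.map inr) ∨ ∃ (u : List ℕ) (B : ℕ), p = u.map inr ++ [inl B]

lemma RL.cases {p : List (ℕ ⊕ ℕ)} (h : RL p) :
    p = [] ∨ (∃ a r, p = inr a :: r ∧ RL r) ∨ ∃ B, p = [inl B] := by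
  rcases h with ⟨u, rfl⟩ | ⟨u, B, rfl⟩
  · cases u with
    | nil => exact Or.inl rfl
    | cons a u => exact Or.inr (Or.inl ⟨a, u.map inr, rfl, Or.inl ⟨u, rfl⟩⟩)
  · cases u with
    | nil => exact Or.inr (Or.inr ⟨B, rfl⟩)
    | cons a u => exact Or.inr (Or.inl ⟨a, u.map inr ++ [inl B], rfl, Or.inr ⟨u, B, rfl⟩⟩)

lemma RL.suffix {p q : List (ℕ ⊕ ℕ)} (h : RL p) (hq : q <:+ p) : RL q := by
  obtain ⟨t, rfl⟩ := hq
  induction t with
  | nil => exact h
  | cons x t ih =>
    apply ih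
    rcases h.cases with h | ⟨a, r, h, hr⟩ | ⟨B, h⟩
    · simp at h
    · rw [List.cons_append, List.cons.injEq] at h
      rw [h.2]; exact hr
    · rw [List.cons_append, List.cons.injEq] at h
      rw [h.2]; exact Or.inl ⟨[], rfl⟩

section automaton

variable (PR : Set Pr) (S' : ℕ)

/-- suffixes of right-hand sides -/
def Suf : Set St := {s | ∃ p ∈ PR, s <:+ p.2}

/-- states -/
def Qs : Set St := insert [inl S'] (Suf PR)

/-- transitions -/
def Tr (p : St) (a : ℕ) (r : St) : Prop :=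
  (∃ A, (A, inr a :: r) ∈ PR ∧ p = [inl A]) ∨ (p = inr a :: r ∧ p ∈ Suf PR)

/-- paths -/
def Path : St → List ℕ → St → Prop
  | p, [], q => p = q
  | p, a :: w, q => ∃ r, Tr PR p a r ∧ Path r w q

variable {PR S'}

lemma path_append {p q : St} {u v : List ℕ} :
    Path PR p (u ++ v) q ↔ ∃ r, Path PR p u r ∧ Path PR r v q := by
  induction u generalizing p with
  | nil => simp [Path]
  | cons a u ih =>
    simp only [List.cons_append, Path, ih]
    constructor
    · rintro ⟨r, h, s, h1, h2⟩; exact ⟨s, ⟨r, h, h1⟩, h2⟩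
    · rintro ⟨s, ⟨r, h, h1⟩, h2⟩; exact ⟨r, h, s, h1, h2⟩

lemma tr_suf {p r : St} {a : ℕ} (h : Tr PR p a r) : inr a :: r ∈ Suf PR := by
  rcases h with ⟨A, hA, -⟩ | ⟨rfl, h⟩
  · exact ⟨_, hA, List.suffix_refl _⟩
  · exact h

lemma tr_mem {p r : St} {a : ℕ} (h : Tr PR p a r) : r ∈ Qs PR S' := by
  obtain ⟨x, hx, hs⟩ := tr_suf h
  exact Or.inr ⟨x, hx, (List.suffix_cons _ _).trans hs⟩

lemma path_mem {p q : St} {w : List ℕ} (hp : p ∈ Qs PR S') (h : Path PR p w q) :
    q ∈ Qs PR S' := by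
  induction w generalizing p with
  | nil => exact h ▸ hp
  | cons a w ih =>
    obtain ⟨r, hr, h⟩ := h
    exact ih (tr_mem hr) h

lemma gen_of_path {p : St} {w : List ℕ} (h : Path PR p w []) : GenL PR p w := by
  induction w generalizing p with
  | nil => rw [show p = [] from h]; exact .nil
  | cons a w ih =>
    obtain ⟨r, hr, h⟩ := h
    have h1 : GenL PR (inr a :: r) (a :: w) := .term a r w (ih h)
    rcases hr with ⟨A, hA, rfl⟩ | ⟨rfl, -⟩
    · exact genL_single_iff.2 ⟨_, hA, h1⟩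
    · exact h1

lemma path_of_gen (hRL : ∀ p ∈ PR, p.2 ≠ [] ∧ RL p.2 ∧ ∀ B, p.2 ≠ [inl B]) :
    ∀ (n : ℕ) (p : St) (w : List ℕ), w.length = n → p ∈ Qs PR S' → RL p → GenL PR p w →
      Path PR p w [] := by
  intro n
  induction n with
  | zero =>
    intro p w hn hp hr hg
    rw [List.length_eq_zero_iff] at hn
    subst hn
    rcases hr.cases with rfl | ⟨a, r, rfl, hr⟩ | ⟨B, rfl⟩
    · rfl
    · rw [genL_term_iff] at hg
      obtain ⟨v, h, -⟩ := hg
      simp at h
    · rw [genL_single_iff] at hg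
      obtain ⟨γ, hγ, hg⟩ := hg
      obtain ⟨h1, h2, h3⟩ := hRL _ hγ
      simp only at h1 h2 h3
      rcases h2.cases with rfl | ⟨a, r, rfl, hr⟩ | ⟨C, rfl⟩
      · exact absurd rfl h1
      · rw [genL_term_iff] at hg
        obtain ⟨v, h, -⟩ := hg
        simp at h
      · exact absurd rfl (h3 C)
  | succ n ih =>
    intro p w hn hp hr hg
    rcases hr.cases with rfl | ⟨a, r, rfl, hr'⟩ | ⟨B, rfl⟩
    · rw [genL_nil_iff] at hg
      subst hg
      rfl
    · rw [genL_term_iff] at hg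
      obtain ⟨v, rfl, hg⟩ := hg
      have hs : inr a :: r ∈ Suf PR := by
        rcases hp with h | h
        · simp at h
        · exact h
      have ht : Tr PR (inr a :: r) a r := Or.inr ⟨rfl, hs⟩
      exact ⟨r, ht, ih r v (by simpa using hn) (tr_mem ht) hr' hg⟩
    · rw [genL_single_iff] at hg
      obtain ⟨γ, hγ, hg⟩ := hg
      obtain ⟨h1, h2, h3⟩ := hRL _ hγ
      simp only at h1 h2 h3
      rcases h2.cases with rfl | ⟨a, r, rfl, hr⟩ | ⟨C, rfl⟩
      · exact absurd rfl h1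
      · rw [genL_term_iff] at hg
        obtain ⟨v, rfl, hg⟩ := hg
        have ht : Tr PR [inl B] a r := Or.inl ⟨B, hγ, rfl⟩
        exact ⟨r, ht, ih r v (by simpa using hn) (tr_mem ht) hr hg⟩
      · exact absurd rfl (h3 C)

lemma suf_finite (h : PR.Finite) : (Suf PR).Finite := by
  have : Suf PR = ⋃ p ∈ PR, {s | s <:+ p.2} := by
    ext s; simp [Suf]
  rw [this]
  refine h.biUnion fun p _ => ?_
  have : {s | s <:+ p.2} = {s | s ∈ p.2.tails} := by ext s; simp
  rw [this]
  exact List.finite_toSet _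

lemma qs_finite (h : PR.Finite) : (Qs PR S').Finite := (suf_finite h).insert _

lemma tr_finite (h : PR.Finite) (p : St) : {x : ℕ × St | Tr PR p x.1 x.2}.Finite := by
  have hi : Function.Injective (fun x : ℕ × St => (inr x.1 :: x.2 : St)) := by
    rintro ⟨a, r⟩ ⟨b, s⟩ h
    simp only [List.cons.injEq, inr.injEq] at h
    rw [h.1, h.2]
  refine Set.Finite.subset ((suf_finite h).preimage (f := fun x : ℕ × St => (inr x.1 :: x.2 : St))
    hi.injOn) ?_
  intro x hx
  exact tr_suf hx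

end automaton

section lift

variable (PR : Set Pr) (S' : ℕ) (g : ℕ → ℕ)

/-- lifts of a sentential form along paths -/
def LiftR : St → List (ℕ ⊕ ℕ) → List (NT2 ⊕ ℕ) → St → Prop
  | p, [], [], q => p = q
  | p, inr a :: β, inr a' :: γ, q => g a' = a ∧ ∃ r, Tr PR p a' r ∧ LiftR r β γ q
  | p, inl A :: β, inl (inr (p', A', r)) :: γ, q => p' = p ∧ A' = A ∧ r ∈ Qs PR S' ∧ LiftR r β γ q
  | _, _, _, _ => False

variable {PR S' g}

lemma lift_finite (h : PR.Finite) (β : List (ℕ ⊕ ℕ)) : ∀ p : St,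
    {x : List (NT2 ⊕ ℕ) × St | LiftR PR S' g p β x.1 x.2}.Finite := by
  induction β with
  | nil =>
    intro p
    refine (Set.finite_singleton (([] : List (NT2 ⊕ ℕ)), p)).subset ?_
    rintro ⟨γ, q⟩ hx
    cases γ with
    | nil =>
      have : p = q := hx
      subst this; rfl
    | cons x γ => simp [LiftR] at hx
  | cons y β ih =>
    intro p
    cases y with
    | inr a =>
      have hfin : (⋃ x ∈ {x : ℕ × St | Tr PR p x.1 x.2},
          (fun z : List (NT2 ⊕ ℕ) × St => ((inr x.1 :: z.1 : List (NT2 ⊕ ℕ)), z.2)) ''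
            {z | LiftR PR S' g x.2 β z.1 z.2}).Finite :=
        (tr_finite h p).biUnion fun x _ => (ih x.2).image _
      refine hfin.subset ?_
      rintro ⟨γ, q⟩ hx
      cases γ with
      | nil => simp [LiftR] at hx
      | cons x γ =>
        cases x with
        | inl A => simp [LiftR] at hx
        | inr a' =>
          obtain ⟨-, r, h1, h2⟩ := hx
          exact Set.mem_biUnion (x := (a', r)) h1 ⟨(γ, q), h2, rfl⟩
    | inl A =>
      have hfin : (⋃ r ∈ Qs PR S',
          (fun z : List (NT2 ⊕ ℕ) × St => ((inl (inr (p, A, r)) :: z.1 : List (NT2 ⊕ ℕ)), z.2)) ''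
            {z | LiftR PR S' g r β z.1 z.2}).Finite :=
        (qs_finite h).biUnion fun r _ => (ih r).image _
      refine hfin.subset ?_
      rintro ⟨γ, q⟩ hx
      cases γ with
      | nil => simp [LiftR] at hx
      | cons x γ =>
        rcases x with (B | ⟨p', A', r⟩) | a
        · simp [LiftR] at hx
        · obtain ⟨rfl, rfl, h1, h2⟩ := hx
          exact Set.mem_biUnion h1 ⟨(γ, q), h2, rfl⟩
        · simp [LiftR] at hx

lemma lift_map (f : ℕ → ℕ) {β : List (ℕ ⊕ ℕ)} : ∀ {p q : St} {γ : List (NT2 ⊕ ℕ)},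
    LiftR PR S' g p β γ q →
    γ.map (Sum.map (Sum.elim f (fun x : St × ℕ × St => x.2.1)) g) = β := by
  induction β with
  | nil =>
    intro p q γ h
    cases γ with
    | nil => rfl
    | cons x γ => simp [LiftR] at h
  | cons y β ih =>
    intro p q γ h
    cases y with
    | inr a =>
      cases γ with
      | nil => simp [LiftR] at h
      | cons x γ =>
        cases x with
        | inl A => simp [LiftR] at h
        | inr a' =>
          obtain ⟨h0, r, h1, h2⟩ := h
          rw [List.map_cons, ih h2, Sum.map_inr, h0]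
    | inl A =>
      cases γ with
      | nil => simp [LiftR] at h
      | cons x γ =>
        rcases x with (B | ⟨p', A', r⟩) | a
        · simp [LiftR] at h
        · obtain ⟨rfl, rfl, h1, h2⟩ := h
          rw [List.map_cons, ih h2, Sum.map_inl]
          rfl
        · simp [LiftR] at h

end lift

/-- renaming of type 0 -/
def ren (β : List (ℕ ⊕ ℕ)) : List (NT2 ⊕ ℕ) := β.map (Sum.map inl id)

section main

variable (P₀ P0' PR : Set Pr) (S S' : ℕ) (g : ℕ → ℕ)

/-- the productions of the absorbing interpretation -/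
def P2 : Set (NT2 × List (NT2 ⊕ ℕ)) :=
  (fun p : Pr => ((inl p.1 : NT2), ren p.2)) '' P0' ∪
  ((⋃ x ∈ P₀, ⋃ p ∈ Qs PR S', (fun z : List (NT2 ⊕ ℕ) × St => ((inr (p, x.1, z.2) : NT2), z.1)) ''
    {z | LiftR PR S' g p x.2 z.1 z.2}) ∪
  {y | ∃ β, (S, β) ∈ P₀ ∧ y.1 = inl S' ∧ LiftR PR S' g [inl S'] β y.2 []})

variable {P₀ P0' PR S S' g}

lemma P2_finite (h0 : P₀.Finite) (h1 : P0'.Finite) (h2 : PR.Finite) :
    (P2 P₀ P0' PR S S' g).Finite := by
  refine (h1.image _).union ((h0.biUnion fun x _ => (qs_finite h2).biUnion fun p _ =>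
    (lift_finite h2 x.2 p).image _).union ?_)
  have hfin : (⋃ x ∈ P₀, (fun z : List (NT2 ⊕ ℕ) × St => ((inl S' : NT2), z.1)) ''
      {z | LiftR PR S' g [inl S'] x.2 z.1 z.2}).Finite :=
    h0.biUnion fun x _ => (lift_finite h2 x.2 _).image _
  refine hfin.subset ?_
  rintro ⟨A, γ⟩ ⟨β, hβ, h3, h4⟩
  simp only at h3
  subst h3
  exact Set.mem_biUnion hβ ⟨(γ, []), h4, rfl⟩

lemma mem_P2_inl {A : ℕ} {γ : List (NT2 ⊕ ℕ)} (h : ((inl A : NT2), γ) ∈ P2 P₀ P0' PR S S' g) :
    (∃ β, (A, β) ∈ P0' ∧ γ = ren β) ∨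
      (A = S' ∧ ∃ β, (S, β) ∈ P₀ ∧ LiftR PR S' g [inl S'] β γ []) := by
  rcases h with ⟨⟨B, β⟩, hB, he⟩ | h | ⟨β, hβ, h1, h2⟩
  · rw [Prod.mk.injEq, inl.injEq] at he
    obtain ⟨rfl, rfl⟩ := he
    exact Or.inl ⟨β, hB, rfl⟩
  · simp only [Set.mem_iUnion] at h
    obtain ⟨x, hx, p, hp, z, hz, he⟩ := h
    simp at he
  · simp only [inl.injEq] at h1
    exact Or.inr ⟨h1, β, hβ, h2⟩

lemma mem_P2_inr {p q : St} {A : ℕ} {γ : List (NT2 ⊕ ℕ)}
    (h : ((inr (p, A, q) : NT2), γ) ∈ P2 P₀ P0' PR S S' g) :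
    ∃ β, (A, β) ∈ P₀ ∧ LiftR PR S' g p β γ q := by
  rcases h with ⟨⟨B, β⟩, hB, he⟩ | h | ⟨β, hβ, h1, h2⟩
  · simp at he
  · simp only [Set.mem_iUnion] at h
    obtain ⟨⟨B, β⟩, hx, p', hp, ⟨z, q'⟩, hz, he⟩ := h
    simp only [Prod.mk.injEq, inr.injEq] at he
    obtain ⟨⟨rfl, rfl, rfl⟩, rfl⟩ := he
    exact ⟨β, hx, hz⟩
  · simp at h1

lemma P2_inr_mem {p q : St} {A : ℕ} {β : List (ℕ ⊕ ℕ)} {γ : List (NT2 ⊕ ℕ)} (hA : (A, β) ∈ P₀)
    (hp : p ∈ Qs PR S') (hl : LiftR PR S' g p β γ q) :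
    ((inr (p, A, q) : NT2), γ) ∈ P2 P₀ P0' PR S S' g := by
  refine Or.inr (Or.inl ?_)
  simp only [Set.mem_iUnion]
  exact ⟨(A, β), hA, p, hp, (γ, q), hl, rfl⟩

theorem sound (h0 : ∀ A β, (A, β) ∈ P0' → ∀ B, inl B ∈ β → B ≠ S') {α : List (NT2 ⊕ ℕ)}
    {w : List ℕ} (h : GenL (P2 P₀ P0' PR S S' g) α w) :
    (∀ β, α = ren β → (∀ B, inl B ∈ β → B ≠ S') → GenL P0' β w) ∧
    (∀ p q β, LiftR PR S' g p β α q → Path PR p w q) := by
  induction h with
  | nil =>
    constructor
    · intro β hβ _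
      have : β = [] := by
        have := hβ.symm
        simpa [ren] using this
      subst this; exact .nil
    · intro p q β hl
      cases β with
      | nil => exact hl
      | cons y β => cases y <;> simp [LiftR] at hl
  | term a β w _ ih =>
    constructor
    · intro β' hβ hB
      cases β' with
      | nil => simp [ren] at hβ
      | cons y β' =>
        cases y with
        | inl A => simp [ren] at hβ
        | inr b =>
          simp only [ren, List.map_cons, Sum.map_inr, id, List.cons.injEq, inr.injEq] at hβ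
          obtain ⟨rfl, hβ⟩ := hβ
          exact .term _ _ _ (ih.1 β' hβ fun B hB' => hB B (List.mem_cons_of_mem _ hB'))
    · intro p q β' hl
      cases β' with
      | nil => simp [LiftR] at hl
      | cons y β' =>
        cases y with
        | inl A => simp [LiftR] at hl
        | inr b =>
          obtain ⟨-, r, h1, h2⟩ := hl
          exact ⟨r, h1, ih.2 _ _ _ h2⟩
  | nt A γ β u w hA _ _ ih₁ ih₂ =>
    constructor
    · intro β' hβ hB
      cases β' with
      | nil => simp [ren] at hβ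
      | cons y β' =>
        cases y with
        | inr b => simp [ren] at hβ
        | inl C =>
          simp only [ren, List.map_cons, Sum.map_inl, List.cons.injEq, inl.injEq] at hβ
          obtain ⟨rfl, hβ⟩ := hβ
          rcases mem_P2_inl hA with ⟨δ, hδ, rfl⟩ | ⟨h1, -⟩
          · exact .nt _ _ _ _ _ hδ (ih₁.1 δ rfl (h0 _ _ hδ))
              (ih₂.1 β' hβ fun B hB' => hB B (List.mem_cons_of_mem _ hB'))
          · exact absurd h1 (hB C (List.mem_cons_self))
    · intro p q β' hl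
      rcases A with B | ⟨p', A', r⟩
      · cases β' with
        | nil => simp [LiftR] at hl
        | cons y β' => cases y <;> simp [LiftR] at hl
      · cases β' with
        | nil => simp [LiftR] at hl
        | cons y β' =>
          cases y with
          | inr b => simp [LiftR] at hl
          | inl C =>
            obtain ⟨rfl, rfl, h1, h2⟩ := hl
            obtain ⟨δ, -, hδ⟩ := mem_P2_inr hA
            exact path_append.2 ⟨r, ih₁.2 _ _ _ hδ, ih₂.2 _ _ _ h2⟩

theorem lifting {β : List (ℕ ⊕ ℕ)} {v : List ℕ} (h : GenL P₀ β v) :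
    ∀ (p q : St) (w : List ℕ), w.map g = v → p ∈ Qs PR S' → Path PR p w q →
      ∃ γ, LiftR PR S' g p β γ q ∧ GenL (P2 P₀ P0' PR S S' g) γ w := by
  induction h with
  | nil =>
    intro p q w hw hp hpath
    have : w = [] := by simpa using hw
    subst this
    exact ⟨[], hpath, .nil⟩
  | term a β v _ ih =>
    intro p q w hw hp hpath
    cases w with
    | nil => simp at hw
    | cons b w =>
      rw [List.map_cons, List.cons.injEq] at hw
      obtain ⟨r, h1, h2⟩ := hpath
      obtain ⟨γ, h3, h4⟩ := ih r q w hw.2 (tr_mem h1) h2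
      exact ⟨inr b :: γ, ⟨hw.1, r, h1, h3⟩, .term _ _ _ h4⟩
  | nt A α β u v hA _ _ ih₁ ih₂ =>
    intro p q w hw hp hpath
    obtain ⟨w₁, w₂, rfl, h1, h2⟩ := List.map_eq_append_iff.1 hw
    obtain ⟨r, h3, h4⟩ := path_append.1 hpath
    have hr : r ∈ Qs PR S' := path_mem hp h3
    obtain ⟨γ₁, h5, h6⟩ := ih₁ p r w₁ h1 hp h3
    obtain ⟨γ₂, h7, h8⟩ := ih₂ r q w₂ h2 hr h4
    exact ⟨inl (inr (p, A, r)) :: γ₂, ⟨rfl, rfl, hr, h7⟩,
      .nt _ _ _ _ _ (P2_inr_mem hA hp h5) h6 h8⟩

end main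

/-- Absorption of a right-linear part. -/
theorem absorb (G₀ : Gram) (R : Set Pr) (isR : ℕ → Prop)
    (hP₀ : ∀ A β, (A, β) ∈ G₀.2 → ¬ isR A ∧ ∀ B, inl B ∈ β → ¬ isR B ∧ B ≠ G₀.1)
    (hR : ∀ A β, (A, β) ∈ R → (A = G₀.1 ∨ isR A) ∧ ∀ B, inl B ∈ β → isR B ∧ B ≠ G₀.1)
    (hRL : ∀ A β, (A, β) ∈ R → β ≠ [] ∧ RL β ∧ ∀ B, β ≠ [inl B])
    (hincl : ∀ w, GenL R [inl G₀.1] w → GenL (prods G₀) [inl G₀.1] w)
    (G₁ : Gram) (h1 : G₁.1 = G₀.1) (hG₁ : ∀ p, p ∈ G₁.2 ↔ p ∈ G₀.2 ∨ p ∈ R) :
    Fam G₁ = Fam G₀ := by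
  apply Set.Subset.antisymm
  · rintro L ⟨G', ⟨f, g, hf, hint⟩, rfl⟩
    -- the two parts of `G'`
    let P0' : Set Pr := {p | p ∈ G'.2 ∧ (f p.1, p.2.map (Sum.map f g)) ∈ G₀.2}
    let PR : Set Pr := {p | p ∈ G'.2 ∧ (f p.1, p.2.map (Sum.map f g)) ∈ R}
    have hfin' : (prods G').Finite := List.finite_toSet _
    have f0 : P0'.Finite := hfin'.subset fun p hp => hp.1
    have fR : PR.Finite := hfin'.subset fun p hp => hp.1
    have fP₀ : (prods G₀).Finite := List.finite_toSet _
    have hf' : f G'.1 = G₀.1 := by rw [hf, h1]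
    have inl_mem : ∀ {β : List (ℕ ⊕ ℕ)} {B : ℕ}, inl B ∈ β → inl (f B) ∈ β.map (Sum.map f g) :=
      fun h => List.mem_map.2 ⟨_, h, rfl⟩
    have h0 : ∀ A β, (A, β) ∈ P0' → ∀ B, inl B ∈ β → B ≠ G'.1 := by
      rintro A β ⟨-, h⟩ B hB rfl
      exact ((hP₀ _ _ h).2 _ (inl_mem hB)).2 hf'
    have hRL' : ∀ p ∈ PR, p.2 ≠ [] ∧ RL p.2 ∧ ∀ B, p.2 ≠ [inl B] := by
      rintro ⟨A, β⟩ ⟨-, h⟩
      obtain ⟨h1, h2, h3⟩ := hRL _ _ h
      simp only at h1 h2 h3 ⊢
      refine ⟨fun e => h1 (by rw [e]; rfl), ?_, fun B e => h3 (f B) (by rw [e]; rfl)⟩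
      -- shape of preimages
      have key : ∀ (β : List (ℕ ⊕ ℕ)) (u : List ℕ), β.map (Sum.map f g) = u.map inr →
          ∃ v : List ℕ, β = v.map inr := by
        intro β
        induction β with
        | nil => intro u _; exact ⟨[], rfl⟩
        | cons x β ih =>
          intro u hu
          cases u with
          | nil => simp at hu
          | cons a u =>
            rw [List.map_cons, List.map_cons, List.cons.injEq] at hu
            cases x with
            | inl A => simp at hu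
            | inr b =>
              obtain ⟨v, rfl⟩ := ih u hu.2
              exact ⟨b :: v, rfl⟩
      rcases h2 with ⟨u, hu⟩ | ⟨u, B, hu⟩
      · exact Or.inl (key β u hu)
      · obtain ⟨x, y, rfl, hx, hy⟩ := List.map_eq_append_iff.1 hu
        obtain ⟨v, rfl⟩ := key x u hx
        cases y with
        | nil => simp at hy
        | cons z y =>
          rw [List.map_cons, List.cons.injEq, List.map_eq_nil_iff] at hy
          obtain ⟨hz, rfl⟩ := hy
          cases z with
          | inr b => simp at hz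
          | inl C => exact Or.inr ⟨v, C, rfl⟩
    -- separation of derivations
    have type0 : ∀ {α : List (ℕ ⊕ ℕ)} {w : List ℕ}, GenL (prods G') α w →
        (∀ B, inl B ∈ α → ¬ isR (f B) ∧ f B ≠ G₀.1) → GenL P0' α w := by
      intro α w h
      induction h with
      | nil => intro _; exact .nil
      | term a β w _ ih => exact fun hB => .term _ _ _ (ih fun B h => hB B (List.mem_cons_of_mem _ h))
      | nt A γ β u w hA _ _ ih₁ ih₂ =>
        intro hB
        have hA' := hB A List.mem_cons_self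
        have hm := (hG₁ _).1 (hint _ hA)
        rcases hm with hm | hm
        · exact .nt _ _ _ _ _ ⟨hA, hm⟩ (ih₁ fun B h => (hP₀ _ _ hm).2 _ (inl_mem h))
            (ih₂ fun B h => hB B (List.mem_cons_of_mem _ h))
        · rcases (hR _ _ hm).1 with h | h
          · exact absurd h hA'.2
          · exact absurd h hA'.1
    have typeR : ∀ {α : List (ℕ ⊕ ℕ)} {w : List ℕ}, GenL (prods G') α w →
        (∀ B, inl B ∈ α → isR (f B) ∧ f B ≠ G₀.1) → GenL PR α w := by
      intro α w h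
      induction h with
      | nil => intro _; exact .nil
      | term a β w _ ih => exact fun hB => .term _ _ _ (ih fun B h => hB B (List.mem_cons_of_mem _ h))
      | nt A γ β u w hA _ _ ih₁ ih₂ =>
        intro hB
        have hA' := hB A List.mem_cons_self
        have hm := (hG₁ _).1 (hint _ hA)
        rcases hm with hm | hm
        · exact absurd hA'.1 (hP₀ _ _ hm).1
        · exact .nt _ _ _ _ _ ⟨hA, hm⟩ (ih₁ fun B h => (hR _ _ hm).2 _ (inl_mem h))
            (ih₂ fun B h => hB B (List.mem_cons_of_mem _ h))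
    -- the new grammar
    let PP := P2 (prods G₀) P0' PR G₀.1 G'.1 g
    obtain ⟨G2, hG2, hG2p, hG2L⟩ := exists_gram (N := NT2) Encodable.encode
      Encodable.encode_injective PP (P2_finite fP₀ f0 fR) (inl G'.1)
    let h : NT2 → ℕ := Sum.elim f (fun x : St × ℕ × St => x.2.1)
    let f2 : ℕ → ℕ := fun n => (Encodable.decode (α := NT2) n).elim 0 h
    have hf2 : ∀ x : NT2, f2 (Encodable.encode x) = h x := by
      intro x; simp [f2]
    refine ⟨G2, ⟨f2, g, ?_, ?_⟩, ?_⟩
    · rw [hG2, hf2]; exact hf'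
    · intro p hp
      obtain ⟨⟨A, γ⟩, hq, rfl⟩ := (hG2p p).1 hp
      simp only
      rw [hf2, List.map_map]
      have e : (Sum.map f2 g) ∘ (Sum.map (Encodable.encode (α := NT2)) id) = Sum.map h g := by
        ext x
        cases x with
        | inl y => simp [hf2]
        | inr y => simp
      rw [e]
      rcases A with A | ⟨p, A, q⟩
      · rcases mem_P2_inl hq with ⟨β, hβ, rfl⟩ | ⟨rfl, β, hβ, hl⟩
        · have e2 : (ren β).map (Sum.map h g) = β.map (Sum.map f g) := by
            unfold ren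
            rw [List.map_map]
            congr 1
            ext x
            cases x with
            | inl y => rfl
            | inr y => rfl
          rw [e2]
          exact hβ.2
        · rw [lift_map f hl]
          have : h (inl G'.1) = G₀.1 := hf'
          rw [this]
          exact hβ
      · obtain ⟨β, hβ, hl⟩ := mem_P2_inr hq
        rw [lift_map f hl]
        exact hβ
    · ext w
      rw [hG2L, mem_Lang_iff]
      constructor
      · intro hg
        obtain ⟨γ, hγ, hg⟩ := genL_single_iff.1 hg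
        rcases mem_P2_inl hγ with ⟨β, hβ, rfl⟩ | ⟨-, β, hβ, hl⟩
        · have := (sound h0 hg).1 β rfl (h0 _ _ hβ)
          exact genL_single_iff.2 ⟨β, hβ.1, this.mono fun p hp => hp.1⟩
        · have := (sound h0 hg).2 _ _ _ hl
          exact (gen_of_path this).mono fun p hp => hp.1
      · intro hg
        obtain ⟨γ, hγ, hg⟩ := genL_single_iff.1 hg
        have hm := (hG₁ _).1 (hint _ hγ)
        rcases hm with hm | hm
        · have h2 := type0 hg fun B hB => (hP₀ _ _ hm).2 _ (inl_mem hB)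
          refine genL_single_iff.2 ⟨ren γ, Or.inl ⟨(G'.1, γ), ⟨hγ, hm⟩, rfl⟩, ?_⟩
          have h3 := h2.map (P' := PP) (inl : ℕ → NT2) id
            (fun A β hA => Or.inl ⟨(A, β), hA, rfl⟩)
          simpa [ren] using h3
        · have h2 := typeR hg fun B hB => (hR _ _ hm).2 _ (inl_mem hB)
          have h3 : GenL PR [inl G'.1] w := genL_single_iff.2 ⟨γ, ⟨hγ, hm⟩, h2⟩
          have h4 : Path PR [inl G'.1] w [] :=
            path_of_gen (S' := G'.1) hRL' _ _ w rfl (Or.inl rfl) (Or.inr ⟨[], G'.1, rfl⟩) h3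
          have h5 : GenL R [inl G₀.1] (w.map g) := by
            have := h3.map (P' := R) f g (fun A β hA => hA.2)
            simpa [hf'] using this
          obtain ⟨β, hβ, h6⟩ := genL_single_iff.1 (hincl _ h5)
          obtain ⟨δ, hδ, h7⟩ := lifting (P₀ := prods G₀) (P0' := P0') (S := G₀.1) h6
            [inl G'.1] [] w rfl (Or.inl rfl) h4
          exact genL_single_iff.2 ⟨δ, Or.inr (Or.inr ⟨β, hβ, rfl, hδ⟩), h7⟩
  · rintro L ⟨G', ⟨f, g, hf, hint⟩, rfl⟩
    exact ⟨G', ⟨f, g, by rw [h1]; exact hf, fun p hp => (hG₁ _).2 (Or.inl (hint p hp))⟩, rfl⟩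

end Pool.Agent.Helper88.GF
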