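import Mathlib
import Pool.Agent.Helper88.GF.Gen

set_option autoImplicit false

namespace Pool.Agent.Helper88.GF

open Sum

/-- stack actions -/
inductive Act (K Γ : Type) : Type
  | push (k : K) (x : Γ) : Act K Γ
  | pop (k : K) (x : Γ) : Act K Γ
  | peek (k : K) (x : Γ) : Act K Γ
  | empty (k : K) : Act K Γ
  | nop : Act K Γ

/-- nonterminals -/
inductive Nt (K Z : Type) : Type
  | S : Nt K Z
  | E : Nt K Z
  | D (k : K) : Nt K Z
  | B (k : K) : Nt K Z
  | C (z : Z) : Nt K Z

section run

variable {K Γ : Type} [DecidableEq K] [DecidableEq Γ]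

/-- effect of an action on stack `k`, `none` if the action is impossible -/
def eff (k : K) : Act K Γ → List Γ → Option (List Γ)
  | .push k' x, s => if k' = k then some (x :: s) else some s
  | .pop k' x, s => if k' = k then (if s.head? = some x then some s.tail else none) else some s
  | .peek k' x, s => if k' = k then (if s.head? = some x then some s else none) else some s
  | .empty k', s => if k' = k then (if s = [] then some s else none) else some s
  | .nop, s => some s

/-- effect of a sequence of actions on stack `k` -/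
def run (k : K) : List (Act K Γ) → List Γ → Option (List Γ)
  | [], s => some s
  | a :: w, s => (eff k a s).bind (run k w)

lemma run_append (k : K) (u v : List (Act K Γ)) (s : List Γ) :
    run k (u ++ v) s = (run k u s).bind (run k v) := by
  induction u generalizing s with
  | nil => rfl
  | cons a u ih =>
    simp only [List.cons_append, run]
    cases eff k a s with
    | none => rfl
    | some t => exact ih t

lemma run_cons (k : K) (a : Act K Γ) (w : List (Act K Γ)) (s : List Γ) :
    run k (a :: w) s = (eff k a s).bind (run k w) := rfl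

lemma eff_push (k : K) (x : Γ) (s : List Γ) : eff k (Act.push k x) s = some (x :: s) := by
  simp [eff]

/-- the action never changes stack `k` -/
def Neutral (k : K) (a : Act K Γ) : Prop := ∀ s, eff k a s = none ∨ eff k a s = some s

/-- the action fails whenever `y` is on top of stack `k` -/
def BadTop (k : K) (y : Γ) (a : Act K Γ) : Prop := ∀ s, eff k a (y :: s) = none

lemma badTop_of {k : K} {y : Γ} {a : Act K Γ} {s : List Γ} (h : eff k a (y :: s) = none) :
    BadTop k y a := by
  intro t
  cases a with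
  | nop => simp [eff] at h
  | push k' x => simp only [eff] at h; split_ifs at h
  | pop k' x =>
    simp only [eff, List.head?_cons] at h ⊢
    split_ifs at h ⊢ <;> first | rfl | simp_all
  | peek k' x =>
    simp only [eff, List.head?_cons] at h ⊢
    split_ifs at h ⊢ <;> first | rfl | simp_all
  | empty k' =>
    simp only [eff] at h ⊢
    split_ifs at h ⊢ <;> first | rfl | simp_all

end run

section gram

variable (K Γ Z : Type) [DecidableEq K] [DecidableEq Γ]

abbrev Tt : Type := Option (Act K Γ)
abbrev Rule : Type := Nt K Z × List (Nt K Z ⊕ Tt K Γ)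

variable {K Γ Z}

/-- terminal letter -/
abbrev lt (a : Act K Γ) : Nt K Z ⊕ Tt K Γ := inr (some a)
abbrev dol : Nt K Z ⊕ Tt K Γ := inr none

variable (i : Act K Γ → ℕ) (M : ℕ)

variable (K Γ Z) in
/-- the rules of the error grammar -/
inductive ER (i : Act K Γ → ℕ) (M : ℕ) : Rule K Γ Z → Prop
  | frame0 : ER i M (.S, [dol, dol])
  | frame (a : Act K Γ) : ER i M (.S, List.replicate (i a + 2) dol ++ [lt a])
  | longE : ER i M (.S, List.replicate M dol ++ [inl .E])
  | longD (k : K) : ER i M (.S, List.replicate M dol ++ [inl (.D k)])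
  | el (a : Act K Γ) : ER i M (.E, [lt a, inl .E])
  | er (a : Act K Γ) : ER i M (.E, [inl .E, lt a])
  | e1 (k : K) (y : Γ) (x : Act K Γ) (h : BadTop k y x) : ER i M (.E, [lt (.push k y), lt x])
  | e2 (k : K) (y : Γ) (x : Act K Γ) (h : BadTop k y x) :
      ER i M (.E, [lt (.push k y), inl (.B k), lt x])
  | dr (k : K) (a : Act K Γ) : ER i M (.D k, [inl (.D k), lt a])
  | d1 (k : K) (x : Act K Γ) (h : eff k x [] = none) : ER i M (.D k, [lt x])
  | d2 (k : K) (x : Act K Γ) (h : eff k x [] = none) : ER i M (.D k, [inl (.B k), lt x])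
  | b0 (k : K) (x : Act K Γ) (h : Neutral k x) : ER i M (.B k, [lt x])
  | b1 (k : K) (x : Γ) : ER i M (.B k, [lt (.push k x), lt (.pop k x)])
  | b2 (k : K) (x : Γ) : ER i M (.B k, [lt (.push k x), inl (.B k), lt (.pop k x)])
  | b3 (k : K) : ER i M (.B k, [inl (.B k), inl (.B k)])

variable (K Γ Z) in
def PE (i : Act K Γ → ℕ) (M : ℕ) : Set (Rule K Γ Z) := {p | ER K Γ Z i M p}

/-- semantics of lists of symbols from a semantics of nonterminals -/
def SemL {N T : Type} (Sem : N → List T → Prop) : List (N ⊕ T) → List T → Prop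
  | [], w => w = []
  | inr a :: β, w => ∃ v, w = a :: v ∧ SemL Sem β v
  | inl A :: β, w => ∃ u v, w = u ++ v ∧ Sem A u ∧ SemL Sem β v

lemma semL_of_genL {N T : Type} {P : Set (N × List (N ⊕ T))} (Sem : N → List T → Prop)
    (hP : ∀ A β w, (A, β) ∈ P → SemL Sem β w → Sem A w) {α : List (N ⊕ T)} {w : List T}
    (h : GenL P α w) : SemL Sem α w := by
  induction h with
  | nil => rfl
  | term a β w _ ih => exact ⟨w, rfl, ih⟩
  | nt A α β u w hA _ _ ih₁ ih₂ => exact ⟨u, w, rfl, hP _ _ _ hA ih₁, ih₂⟩

lemma semL_replicate {N T : Type} {Sem : N → List T → Prop} (t : T) (m : ℕ)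
    (β : List (N ⊕ T)) (w : List T) (h : SemL Sem (List.replicate m (inr t) ++ β) w) :
    ∃ v, w = List.replicate m t ++ v ∧ SemL Sem β v := by
  induction m generalizing w with
  | zero => exact ⟨w, rfl, h⟩
  | succ m ih =>
    rw [List.replicate_succ, List.cons_append] at h
    obtain ⟨v, rfl, h⟩ := h
    obtain ⟨v', rfl, h'⟩ := ih v h
    exact ⟨v', by rw [List.replicate_succ, List.cons_append], h'⟩

/-- meaning of the nonterminals of the error grammar -/
def Sem (i : Act K Γ → ℕ) (M : ℕ) : Nt K Z → List (Tt K Γ) → Prop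
  | .S, w => w = [none, none] ∨ (∃ a, w = List.replicate (i a + 2) none ++ [some a]) ∨
      ∃ v : List (Act K Γ), w = List.replicate M none ++ v.map some ∧ ∃ k, run k v [] = none
  | .E, w => ∃ v : List (Act K Γ), w = v.map some ∧ ∃ k, ∀ s, run k v s = none
  | .D k, w => ∃ v : List (Act K Γ), w = v.map some ∧ run k v [] = none
  | .B k, w => ∃ v : List (Act K Γ), w = v.map some ∧ ∀ s, run k v s = none ∨ run k v s = some s
  | .C _, _ => False

lemma run_single (k : K) (a : Act K Γ) (s : List Γ) : run k [a] s = eff k a s := by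
  simp only [run]
  cases eff k a s <;> rfl

theorem sound_E {A : Nt K Z} {β : List (Nt K Z ⊕ Tt K Γ)} {w : List (Tt K Γ)}
    (h : ER K Γ Z i M (A, β)) (hw : SemL (Sem i M) β w) : Sem i M A w := by
  cases h with
  | frame0 =>
    obtain ⟨v, rfl, v', rfl, rfl⟩ := hw
    exact Or.inl rfl
  | frame a =>
    obtain ⟨v, rfl, v', rfl, rfl⟩ := semL_replicate _ _ _ _ hw
    exact Or.inr (Or.inl ⟨a, rfl⟩)
  | longE =>
    obtain ⟨v, rfl, u, v', rfl, ⟨x, rfl, k, hk⟩, rfl⟩ := semL_replicate _ _ _ _ hw
    exact Or.inr (Or.inr ⟨x, by simp, k, hk []⟩)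
  | longD k =>
    obtain ⟨v, rfl, u, v', rfl, ⟨x, rfl, hk⟩, rfl⟩ := semL_replicate _ _ _ _ hw
    exact Or.inr (Or.inr ⟨x, by simp, k, hk⟩)
  | el a =>
    obtain ⟨v, rfl, u, v', rfl, ⟨x, rfl, k, hk⟩, rfl⟩ := hw
    refine ⟨a :: x, by simp, k, fun s => ?_⟩
    simp only [run]
    cases eff k a s with
    | none => rfl
    | some t => exact hk t
  | er a =>
    obtain ⟨u, v, rfl, ⟨x, rfl, k, hk⟩, v', rfl, rfl⟩ := hw
    refine ⟨x ++ [a], by simp, k, fun s => ?_⟩
    rw [run_append, hk s]; rfl
  | e1 k y x h =>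
    obtain ⟨v, rfl, v', rfl, rfl⟩ := hw
    refine ⟨[.push k y, x], rfl, k, fun s => ?_⟩
    rw [run_cons, eff_push, Option.bind_some, run_single, h s]
  | e2 k y x h =>
    obtain ⟨v, rfl, u, v', rfl, ⟨b, rfl, hb⟩, v'', rfl, rfl⟩ := hw
    refine ⟨.push k y :: (b ++ [x]), by simp, k, fun s => ?_⟩
    rw [run_cons, eff_push, Option.bind_some, run_append]
    rcases hb (y :: s) with h1 | h1
    · rw [h1]; rfl
    · rw [h1, Option.bind_some, run_single, h s]
  | dr k a =>
    obtain ⟨u, v, rfl, ⟨x, rfl, hk⟩, v', rfl, rfl⟩ := hw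
    refine ⟨x ++ [a], by simp, ?_⟩
    rw [run_append, hk]; rfl
  | d1 k x h =>
    obtain ⟨v, rfl, rfl⟩ := hw
    exact ⟨[x], rfl, by rw [run_single, h]⟩
  | d2 k x h =>
    obtain ⟨u, v, rfl, ⟨b, rfl, hb⟩, v', rfl, rfl⟩ := hw
    refine ⟨b ++ [x], by simp, ?_⟩
    rw [run_append]
    rcases hb [] with h1 | h1
    · rw [h1]; rfl
    · rw [h1, Option.bind_some, run_single, h]
  | b0 k x h =>
    obtain ⟨v, rfl, rfl⟩ := hw
    exact ⟨[x], rfl, fun s => by rw [run_single]; exact h s⟩
  | b1 k x =>
    obtain ⟨v, rfl, v', rfl, rfl⟩ := hw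
    refine ⟨[.push k x, .pop k x], rfl, fun s => Or.inr ?_⟩
    simp [run, eff]
  | b2 k x =>
    obtain ⟨v, rfl, u, v', rfl, ⟨b, rfl, hb⟩, v'', rfl, rfl⟩ := hw
    refine ⟨.push k x :: (b ++ [.pop k x]), by simp, fun s => ?_⟩
    rw [run_cons, eff_push, Option.bind_some, run_append]
    rcases hb (x :: s) with h1 | h1
    · rw [h1]; exact Or.inl rfl
    · rw [h1]; right; simp [run, eff]
  | b3 k =>
    obtain ⟨u, v, rfl, ⟨b, rfl, hb⟩, u', v', rfl, ⟨b', rfl, hb'⟩, rfl⟩ := hw
    refine ⟨b ++ b', by simp, fun s => ?_⟩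
    rw [run_append]
    rcases hb s with h1 | h1
    · rw [h1]; exact Or.inl rfl
    · rw [h1, Option.bind_some]; exact hb' s

theorem sem_S {w : List (Tt K Γ)} (h : GenL (PE K Γ Z i M) [inl .S] w) :
    Sem (Z := Z) i M .S w := by
  have := semL_of_genL (P := PE K Γ Z i M) (Sem i M) (fun A β w hA hw => sound_E i M hA hw) h
  obtain ⟨u, v, rfl, h1, rfl⟩ := this
  rw [List.append_nil]; exact h1

/-- balanced words -/
def Bal (k : K) (u : List (Act K Γ)) : Prop :=
  u = [] ∨ GenL (PE K Γ Z i M) [inl (.B k)] (u.map some)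

lemma gcons {P : Set (Rule K Γ Z)} {A : Nt K Z} {u w : List (Tt K Γ)}
    {β : List (Nt K Z ⊕ Tt K Γ)} (h : GenL P [inl A] u) (h' : GenL P β w) :
    GenL P (inl A :: β) (u ++ w) := GenL.append (α := [inl A]) h h'

lemma gl {β : List (Nt K Z ⊕ Tt K Γ)} {A : Nt K Z} {w : List (Tt K Γ)}
    (h : ER K Γ Z i M (A, β)) (hg : GenL (PE K Γ Z i M) β w) : GenL (PE K Γ Z i M) [inl A] w :=
  genL_single_iff.2 ⟨β, h, hg⟩

lemma bal_append {k : K} {u v : List (Act K Γ)} (hu : Bal (Z := Z) i M k u)
    (hv : Bal (Z := Z) i M k v) : Bal (Z := Z) i M k (u ++ v) := by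
  rcases hu with rfl | hu
  · exact hv
  rcases hv with rfl | hv
  · rw [List.append_nil]; exact Or.inr hu
  · right
    rw [List.map_append]
    exact gl i M (.b3 k) (gcons hu hv)

/-- decomposition of a run along the resulting stack -/
inductive Dec (k : K) : List (Act K Γ) → List Γ → Prop
  | nil (u : List (Act K Γ)) (h : Bal (Z := Z) i M k u) : Dec k u []
  | cons (u₁ u₂ : List (Act K Γ)) (y : Γ) (s : List Γ) (h₁ : Dec k u₁ s)
      (h₂ : Bal (Z := Z) i M k u₂) : Dec k (u₁ ++ .push k y :: u₂) (y :: s)

lemma Dec.app {k : K} {u b : List (Act K Γ)} {s : List Γ} (h : Dec (Z := Z) i M k u s)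
    (hb : Bal (Z := Z) i M k b) : Dec (Z := Z) i M k (u ++ b) s := by
  cases h with
  | nil u h => exact .nil _ (bal_append i M h hb)
  | cons u₁ u₂ y s h₁ h₂ =>
    rw [List.append_assoc, List.cons_append]
    exact .cons _ _ _ _ h₁ (bal_append i M h₂ hb)

lemma bal_neutral {k : K} {x : Act K Γ} (h : Neutral k x) : Bal (Z := Z) i M k [x] :=
  Or.inr (gl i M (.b0 k x h) (.term _ _ _ .nil))

lemma dec_step {k : K} {u : List (Act K Γ)} {s s' : List Γ} {x : Act K Γ}
    (h : Dec (Z := Z) i M k u s) (hx : eff k x s = some s') : Dec (Z := Z) i M k (u ++ [x]) s' := by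
  cases x with
  | push k' y =>
    by_cases hk : k' = k
    · subst hk
      simp only [eff, if_true, Option.some.injEq] at hx
      subst hx
      exact .cons _ _ _ _ h (Or.inl rfl)
    · simp only [eff, if_neg hk, Option.some.injEq] at hx
      subst hx
      exact h.app i M (bal_neutral i M fun s => Or.inr (by simp [eff, hk]))
  | pop k' y =>
    by_cases hk : k' = k
    · subst hk
      simp only [eff, if_true] at hx
      split_ifs at hx with hh
      rw [Option.some.injEq] at hx
      cases h with
      | nil u h => simp at hh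
      | cons u₁ u₂ z s h₁ h₂ =>
        simp only [List.head?_cons, Option.some.injEq] at hh
        subst hh
        simp only [List.tail_cons] at hx
        subst hx
        rw [List.append_assoc, List.cons_append]
        refine h₁.app i M (Or.inr ?_)
        rcases h₂ with rfl | h₂
        · exact gl i M (.b1 _ z) (.term _ _ _ (.term _ _ _ .nil))
        · rw [List.map_cons, List.map_append]
          exact gl i M (.b2 _ z) (.term _ _ _ (gcons h₂ (.term _ _ _ .nil)))
    · simp only [eff, if_neg hk, Option.some.injEq] at hx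
      subst hx
      exact h.app i M (bal_neutral i M fun s => Or.inr (by simp [eff, hk]))
  | peek k' y =>
    have hs : s' = s := by
      simp only [eff] at hx
      split_ifs at hx <;> simp_all
    subst hs
    refine h.app i M (bal_neutral i M fun s => ?_)
    simp only [eff]; split_ifs <;> simp
  | empty k' =>
    have hs : s' = s := by
      simp only [eff] at hx
      split_ifs at hx <;> simp_all
    subst hs
    refine h.app i M (bal_neutral i M fun s => ?_)
    simp only [eff]; split_ifs <;> simp
  | nop =>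
    simp only [eff, Option.some.injEq] at hx
    subst hx
    exact h.app i M (bal_neutral i M fun s => Or.inr rfl)

lemma dec_of_run {k : K} {u : List (Act K Γ)} : ∀ {s : List Γ}, run k u [] = some s →
    Dec (Z := Z) i M k u s := by
  induction u using List.reverseRecOn with
  | nil =>
    intro s h
    simp only [run, Option.some.injEq] at h
    subst h
    exact .nil _ (Or.inl rfl)
  | append_singleton u x ih =>
    intro s h
    rw [run_append] at h
    cases hu : run k u [] with
    | none => rw [hu] at h; simp at h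
    | some t =>
      rw [hu, Option.bind_some, run_single] at h
      exact dec_step i M (ih hu) h

lemma first_fail {k : K} {v : List (Act K Γ)} : ∀ {s : List Γ}, run k v s = none →
    ∃ u x v' t, v = u ++ x :: v' ∧ run k u s = some t ∧ eff k x t = none := by
  induction v with
  | nil => intro s h; simp [run] at h
  | cons a v ih =>
    intro s h
    simp only [run] at h
    cases ha : eff k a s with
    | none => exact ⟨[], a, v, s, rfl, rfl, ha⟩
    | some t =>
      rw [ha, Option.bind_some] at h
      obtain ⟨u, x, v', t', rfl, h1, h2⟩ := ih h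
      exact ⟨a :: u, x, v', t', rfl, by simp [run, ha, h1], h2⟩

lemma e_left {v : List (Tt K Γ)} (h : GenL (PE K Γ Z i M) [inl .E] v) (u : List (Act K Γ)) :
    GenL (PE K Γ Z i M) [inl .E] (u.map some ++ v) := by
  induction u with
  | nil => exact h
  | cons a u ih => exact gl i M (.el a) (.term _ _ _ ih)

lemma e_right {v : List (Tt K Γ)} (h : GenL (PE K Γ Z i M) [inl .E] v) (u : List (Act K Γ)) :
    GenL (PE K Γ Z i M) [inl .E] (v ++ u.map some) := by
  induction u generalizing v with
  | nil => simpa using h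
  | cons a u ih =>
    have h1 : GenL (PE K Γ Z i M) [inl .E] (v ++ [some a]) :=
      gl i M (.er a) (gcons h (.term _ _ _ .nil))
    have := ih h1
    simpa using this

lemma d_right {k : K} {v : List (Tt K Γ)} (h : GenL (PE K Γ Z i M) [inl (.D k)] v)
    (u : List (Act K Γ)) : GenL (PE K Γ Z i M) [inl (.D k)] (v ++ u.map some) := by
  induction u generalizing v with
  | nil => simpa using h
  | cons a u ih =>
    have h1 : GenL (PE K Γ Z i M) [inl (.D k)] (v ++ [some a]) :=
      gl i M (.dr k a) (gcons h (.term _ _ _ .nil))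
    have := ih h1
    simpa using this

lemma gen_replicate {P : Set (Rule K Γ Z)} (m : ℕ) {β : List (Nt K Z ⊕ Tt K Γ)}
    {w : List (Tt K Γ)} (h : GenL P β w) :
    GenL P (List.replicate m dol ++ β) (List.replicate m none ++ w) := by
  induction m with
  | zero => exact h
  | succ m ih =>
    rw [List.replicate_succ, List.replicate_succ]
    exact .term _ _ _ ih

theorem complete_S {k : K} {v : List (Act K Γ)} (h : run k v [] = none) :
    GenL (PE K Γ Z i M) [inl .S] (List.replicate M none ++ v.map some) := by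
  obtain ⟨u, x, v', t, rfl, h1, h2⟩ := first_fail h
  have hd := dec_of_run (Z := Z) i M h1
  cases hd with
  | nil u hu =>
    refine gl i M (.longD k) (gen_replicate M ?_)
    have h3 : GenL (PE K Γ Z i M) [inl (.D k)] ((u ++ [x]).map some) := by
      rcases hu with rfl | hu
      · exact gl i M (.d1 k x h2) (.term _ _ _ .nil)
      · rw [List.map_append]
        exact gl i M (.d2 k x h2) (gcons hu (.term _ _ _ .nil))
    have := d_right i M h3 v'
    simpa using this
  | cons u₁ u₂ y s h₁ h₂ =>
    have hb := badTop_of h2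
    refine gl i M .longE (gen_replicate M ?_)
    have h3 : GenL (PE K Γ Z i M) [inl .E] ((.push k y :: (u₂ ++ [x])).map some) := by
      rcases h₂ with rfl | h₂
      · exact gl i M (.e1 k y x hb) (.term _ _ _ (.term _ _ _ .nil))
      · rw [List.map_cons, List.map_append]
        exact gl i M (.e2 k y x hb) (.term _ _ _ (gcons h₂ (.term _ _ _ .nil)))
    have := e_right i M (e_left i M h3 u₁) v'
    simpa using this

lemma gen_frame0 : GenL (PE K Γ Z i M) [inl .S] [none, none] :=
  gl i M .frame0 (.term _ _ _ (.term _ _ _ .nil))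

lemma gen_frame (a : Act K Γ) :
    GenL (PE K Γ Z i M) [inl .S] (List.replicate (i a + 2) none ++ [some a]) :=
  gl i M (.frame a) (gen_replicate _ (.term _ _ _ .nil))

end gram

end Pool.Agent.Helper88.GF
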