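import Mathlib
import Pool.Agent.Helper88.GF.Trace
import Pool.Agent.Helper88.GF.Absorb

set_option autoImplicit false

namespace Pool.Agent.Helper88.GF

open Sum

instance actFinite {K Γ : Type} [Finite K] [Finite Γ] : Finite (Act K Γ) := by
  let F : Act K Γ → (K × Γ) ⊕ (K × Γ) ⊕ (K × Γ) ⊕ K ⊕ Unit := fun a => match a with
    | .push k x => inl (k, x)
    | .pop k x => inr (inl (k, x))
    | .peek k x => inr (inr (inl (k, x)))
    | .empty k => inr (inr (inr (inl k)))
    | .nop => inr (inr (inr (inr ())))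
  refine Finite.of_injective F ?_
  intro a b h
  cases a <;> cases b <;> simp_all [F]

instance ntFinite {K Z : Type} [Finite K] [Finite Z] : Finite (Nt K Z) := by
  let F : Nt K Z → Unit ⊕ Unit ⊕ K ⊕ K ⊕ Z := fun a => match a with
    | .S => inl ()
    | .E => inr (inl ())
    | .D k => inr (inr (inl k))
    | .B k => inr (inr (inr (inl k)))
    | .C z => inr (inr (inr (inr z)))
  refine Finite.of_injective F ?_
  intro a b h
  cases a <;> cases b <;> simp_all [F]

section frame

variable {K Γ Z : Type}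

/-- accepting paths of the control -/
inductive CPath (Ctl : Z → Act K Γ → Option Z → Prop) : Z → List (Act K Γ) → Prop
  | last (z : Z) (a : Act K Γ) (h : Ctl z a none) : CPath Ctl z [a]
  | step (z : Z) (a : Act K Γ) (z' : Z) (w : List (Act K Γ)) (h : Ctl z a (some z'))
      (hw : CPath Ctl z' w) : CPath Ctl z (a :: w)

/-- the machine halts after the prefix `pre` -/
def Halts [DecidableEq K] [DecidableEq Γ] (Ctl : Z → Act K Γ → Option Z → Prop) (z₀ : Z)
    (pre : List (Act K Γ)) : Prop :=
  ∃ w, CPath Ctl z₀ w ∧ ∀ k, run k (pre ++ w) [] ≠ none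

/-- rules of the control -/
inductive CR (Ctl : Z → Act K Γ → Option Z → Prop) : Rule K Γ Z → Prop
  | last (z : Z) (a : Act K Γ) (h : Ctl z a none) : CR Ctl (.C z, [lt a])
  | step (z : Z) (a : Act K Γ) (z' : Z) (h : Ctl z a (some z')) :
      CR Ctl (.C z, [lt a, inl (.C z')])

/-- the input rule -/
def inRule (M : ℕ) (z₀ : Z) (pre : List (Act K Γ)) : Rule K Γ Z :=
  (.S, (List.replicate M none ++ pre.map some).map inr ++ [inl (.C z₀)])

def encT (i : Act K Γ → ℕ) : Tt K Γ → ℕ
  | none => 0
  | some a => i a + 1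

lemma encT_inj {i : Act K Γ → ℕ} (hi : Function.Injective i) : Function.Injective (encT i) := by
  intro a b h
  cases a with
  | none =>
    cases b with
    | none => rfl
    | some b => simp [encT] at h
  | some a =>
    cases b with
    | none => simp [encT] at h
    | some b =>
      simp only [encT, Nat.add_right_cancel_iff] at h
      rw [hi h]

/-- encoding of rules -/
def encR (eN : Nt K Z → ℕ) (eT : Tt K Γ → ℕ) (p : Rule K Γ Z) : Pr :=
  (eN p.1, p.2.map (Sum.map eN eT))

/-- semantics of the control part -/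
def SemC (Ctl : Z → Act K Γ → Option Z → Prop) (M : ℕ) (z₀ : Z) (pre : List (Act K Γ)) :
    Nt K Z → List (Tt K Γ) → Prop
  | .S, w => ∃ v, w = List.replicate M none ++ (pre ++ v).map some ∧ CPath Ctl z₀ v
  | .C z, w => ∃ v, w = v.map some ∧ CPath Ctl z v
  | _, _ => False

lemma semL_terminals {N T : Type} {Sem : N → List T → Prop} (u : List T) (β : List (N ⊕ T))
    (w : List T) (h : SemL Sem (u.map inr ++ β) w) : ∃ v, w = u ++ v ∧ SemL Sem β v := by
  induction u generalizing w with
  | nil => exact ⟨w, rfl, h⟩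
  | cons a u ih =>
    rw [List.map_cons, List.cons_append] at h
    obtain ⟨v, rfl, h⟩ := h
    obtain ⟨v', rfl, h'⟩ := ih v h
    exact ⟨v', rfl, h'⟩

variable (Ctl : Z → Act K Γ → Option Z → Prop) (M : ℕ) (z₀ : Z) (pre : List (Act K Γ))

lemma sem_control {v : List (Tt K Γ)}
    (h : GenL ({inRule M z₀ pre} ∪ {p | CR Ctl p}) [inl .S] v) :
    ∃ w, v = List.replicate M none ++ (pre ++ w).map some ∧ CPath Ctl z₀ w := by
  have := semL_of_genL (P := {inRule M z₀ pre} ∪ {p | CR Ctl p}) (SemC Ctl M z₀ pre) ?_ h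
  · obtain ⟨u, v', rfl, h1, rfl⟩ := this
    rw [List.append_nil]; exact h1
  · rintro A β w (hA | hA) hw
    · simp only [Set.mem_singleton_iff, inRule, Prod.mk.injEq] at hA
      obtain ⟨rfl, rfl⟩ := hA
      obtain ⟨v', rfl, u, v, rfl, ⟨x, rfl, hx⟩, rfl⟩ := semL_terminals _ _ _ hw
      exact ⟨x, by simp, hx⟩
    · have hA' : CR Ctl (A, β) := hA
      cases hA' with
      | last z a h =>
        obtain ⟨v, rfl, rfl⟩ := hw
        exact ⟨[a], rfl, .last _ _ h⟩
      | step z a z' h =>
        obtain ⟨v, rfl, u, v', rfl, ⟨x, rfl, hx⟩, rfl⟩ := hw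
        exact ⟨a :: x, by simp, .step _ _ _ _ h hx⟩

lemma gen_control {P : Set (Rule K Γ Z)} (hP : ∀ p, CR Ctl p → p ∈ P) {z : Z}
    {w : List (Act K Γ)} (h : CPath Ctl z w) : GenL P [inl (.C z)] (w.map some) := by
  induction h with
  | last z a h => exact genL_single_iff.2 ⟨_, hP _ (.last z a h), .term _ _ _ .nil⟩
  | step z a z' w h _ ih =>
    exact genL_single_iff.2 ⟨_, hP _ (.step z a z' h), .term _ _ _ ih⟩

lemma gen_input {P : Set (Rule K Γ Z)} (hP : ∀ p, CR Ctl p → p ∈ P)
    (hin : inRule M z₀ pre ∈ P) {w : List (Act K Γ)} (h : CPath Ctl z₀ w) :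
    GenL P [inl .S] (List.replicate M none ++ (pre ++ w).map some) := by
  refine genL_single_iff.2 ⟨_, hin, ?_⟩
  have e : List.replicate M none ++ (pre ++ w).map some =
      (List.replicate M none ++ pre.map some) ++ w.map some := by simp
  rw [e]
  exact (genL_terminals _).append (gen_control Ctl hP h)

lemma cpath_ne_nil {z : Z} {w : List (Act K Γ)} (h : CPath Ctl z w) : w ≠ [] := by
  cases h <;> simp

section fin

variable [Finite K] [Finite Γ] [Finite Z]

lemma rules_finite (B : ℕ) : {p : Rule K Γ Z | p.2.length ≤ B}.Finite := by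
  have h1 : {l : List (Nt K Z ⊕ Tt K Γ) | l.length ≤ B}.Finite := List.finite_length_le _ B
  have h2 : (Set.univ : Set (Nt K Z)).Finite := Set.finite_univ
  refine (h2.prod h1).subset ?_
  rintro ⟨A, β⟩ h
  exact ⟨trivial, h⟩

lemma CR_finite : {p : Rule K Γ Z | CR Ctl p}.Finite := by
  refine (rules_finite 2).subset ?_
  intro p hp
  have hp' : CR Ctl p := hp
  cases hp' <;> simp

variable [DecidableEq K] [DecidableEq Γ]

lemma PE_finite (i : Act K Γ → ℕ) (hM : ∀ a, i a + 3 ≤ M) : (PE K Γ Z i M).Finite := by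
  refine (rules_finite (M + 3)).subset ?_
  intro p hp
  have hp' : ER K Γ Z i M p := hp
  cases hp' with
  | frame a => have := hM a; simp; omega
  | _ => simp

end fin

section main

variable [DecidableEq K] [DecidableEq Γ]
variable (i : Act K Γ → ℕ) (eN : Nt K Z → ℕ) (L₀ LR : List Pr)

/-- the grammar for the prefix `pre` -/
def GP : Gram := (eN .S, encR eN (encT i) (inRule M z₀ pre) :: (LR ++ L₀))

variable (hi : Function.Injective i) (hN : Function.Injective eN) (hM : ∀ a, i a + 3 ≤ M)
  (hM3 : 3 ≤ M)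
  (hL₀ : ∀ p, p ∈ L₀ ↔ ∃ q ∈ PE K Γ Z i M, encR eN (encT i) q = p)
  (hLR : ∀ p, p ∈ LR ↔ ∃ q, CR Ctl q ∧ encR eN (encT i) q = p)

include hL₀ in
lemma prods_L0 : prods (eN .S, L₀) = encR eN (encT i) '' PE K Γ Z i M := by
  ext p; exact hL₀ p

include hL₀ hN in
lemma lang0_of {x : List ℕ} (h : x ∈ Lang (eN .S, L₀)) :
    ∃ v, x = v.map (encT i) ∧ Sem (Z := Z) i M .S v := by
  rw [mem_Lang_iff, prods_L0 M i eN L₀ hL₀] at h
  obtain ⟨v, hv, hg⟩ := GenL.of_map (P := PE K Γ Z i M) (α := [inl .S]) eN (encT i) hN h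
  exact ⟨v, hv, sem_S i M hg⟩

include hL₀ in
lemma lang0_mem {v : List (Tt K Γ)} (h : GenL (PE K Γ Z i M) [inl .S] v) :
    v.map (encT i) ∈ Lang (eN .S, L₀) := by
  rw [mem_Lang_iff]
  exact h.map (P' := prods (eN .S, L₀)) eN (encT i) fun A β hA => (hL₀ _).2 ⟨(A, β), hA, rfl⟩

lemma er_nt {A : Nt K Z} {β : List (Nt K Z ⊕ Tt K Γ)} (h : ER K Γ Z i M (A, β)) :
    (∀ z, A ≠ .C z) ∧ ∀ B, inl B ∈ β → B ≠ .S ∧ ∀ z, B ≠ .C z := by
  cases h <;> simp

lemma cr_nt {A : Nt K Z} {β : List (Nt K Z ⊕ Tt K Γ)}
    (h : CR Ctl (A, β) ∨ (A, β) = inRule M z₀ pre) :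
    (A = .S ∨ ∃ z, A = .C z) ∧ ∀ B, inl B ∈ β → B ≠ .S ∧ ∃ z, B = .C z := by
  rcases h with h | h
  · cases h with
    | last z a h => simp
    | step z a z' h => simp
  · simp only [inRule, Prod.mk.injEq] at h
    obtain ⟨rfl, rfl⟩ := h
    refine ⟨Or.inl rfl, ?_⟩
    intro B hB
    rw [List.mem_append] at hB
    rcases hB with hB | hB
    · simp at hB
    · simp only [List.mem_singleton, inl.injEq] at hB
      subst hB
      simp

include hi hN hM hM3 hL₀ hLR in
theorem fam_eq_iff : Fam (GP M z₀ pre i eN L₀ LR) = Fam (eN .S, L₀) ↔ ¬ Halts Ctl z₀ pre := by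
  have hT := encT_inj hi
  constructor
  · rintro hfam ⟨w, hw, hk⟩
    have h1 : Lang (GP M z₀ pre i eN L₀ LR) ∈ Fam (eN .S, L₀) := by
      rw [← hfam]
      refine ⟨_, ⟨id, id, rfl, fun p hp => ?_⟩, rfl⟩
      simpa using hp
    obtain ⟨G', ⟨f, g, hf, hint⟩, hL⟩ := h1
    have key : ∀ v : List (Tt K Γ), v.map (encT i) ∈ Lang (GP M z₀ pre i eN L₀ LR) →
        ∃ v', (v.map (encT i)).map g = v'.map (encT i) ∧ Sem (Z := Z) i M .S v' := by
      intro v hv
      rw [← hL, mem_Lang_iff] at hv
      have := hv.map (P' := prods (eN .S, L₀)) f g (fun A β hA => hint (A, β) hA)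
      rw [List.map_singleton, Sum.map_inl, hf] at this
      exact lang0_of M i eN L₀ hN hL₀ (mem_Lang_iff.2 this)
    have sub : ∀ v : List (Tt K Γ), GenL (PE K Γ Z i M) [inl .S] v →
        v.map (encT i) ∈ Lang (GP M z₀ pre i eN L₀ LR) := by
      intro v hv
      rw [mem_Lang_iff]
      refine hv.map (P' := prods (GP M z₀ pre i eN L₀ LR)) eN (encT i) fun A β hA => ?_
      have : (eN A, β.map (Sum.map eN (encT i))) ∈ L₀ := (hL₀ _).2 ⟨(A, β), hA, rfl⟩
      exact List.mem_cons_of_mem _ (List.mem_append_right _ this)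
    -- the letter for the dollar
    have g0 : g 0 = 0 := by
      obtain ⟨v', e, h⟩ := key _ (sub _ (gen_frame0 i M))
      have hlen := congrArg List.length e
      simp only [List.length_map, List.length_cons, List.length_nil] at hlen
      rcases h with rfl | ⟨a, rfl⟩ | ⟨x, rfl, -⟩
      · simpa [encT] using e
      · simp at hlen
      · simp only [List.length_append, List.length_replicate, List.length_map] at hlen
        omega
    have ga : ∀ a, g (i a + 1) = i a + 1 := by
      intro a
      obtain ⟨v', e, h⟩ := key _ (sub _ (gen_frame i M a))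
      have hlen := congrArg List.length e
      simp only [List.length_map, List.length_append, List.length_replicate, List.length_cons,
        List.length_nil] at hlen
      rcases h with rfl | ⟨b, rfl⟩ | ⟨x, rfl, k, hx⟩
      · simp at hlen
      · simp only [List.length_append, List.length_replicate, List.length_cons,
          List.length_nil] at hlen
        have hab : i a = i b := by omega
        have hab' := hi hab
        subst hab'
        simp only [List.map_append, List.map_replicate, List.map_cons, List.map_nil] at e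
        have := List.append_inj_right e (by simp)
        simpa [encT] using this
      · have hx0 : x ≠ [] := by
          rintro rfl
          simp [run] at hx
        have : 0 < x.length := List.length_pos_iff.2 hx0
        have := hM a
        simp only [List.length_append, List.length_replicate, List.length_map] at hlen
        omega
    have gT : ∀ t : Tt K Γ, g (encT i t) = encT i t := by
      intro t
      cases t with
      | none => exact g0
      | some a => exact ga a
    have hx : GenL (prods (GP M z₀ pre i eN L₀ LR)) [inl (eN .S)]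
        ((List.replicate M none ++ (pre ++ w).map some).map (encT i)) := by
      have h2 := gen_input Ctl M z₀ pre (P := {q | CR Ctl q ∨ q = inRule M z₀ pre})
        (fun p hp => Or.inl hp) (Or.inr rfl) hw
      refine h2.map (P' := prods (GP M z₀ pre i eN L₀ LR)) eN (encT i) ?_
      rintro A β (hA | hA)
      · have : (eN A, β.map (Sum.map eN (encT i))) ∈ LR := (hLR _).2 ⟨(A, β), hA, rfl⟩
        exact List.mem_cons_of_mem _ (List.mem_append_left _ this)
      · have : (eN A, β.map (Sum.map eN (encT i))) = encR eN (encT i) (inRule M z₀ pre) := by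
          rw [← hA]; rfl
        rw [this]
        exact List.mem_cons_self
    obtain ⟨v', e, h⟩ := key _ (mem_Lang_iff.2 hx)
    have e' : List.replicate M none ++ (pre ++ w).map some = v' := by
      apply List.map_injective_iff.2 hT
      rw [← e]
      rw [List.map_map]
      apply List.map_congr_left
      intro t _
      exact (gT t).symm
    have hlen := congrArg List.length e'
    have hw0 : 0 < w.length := List.length_pos_iff.2 (cpath_ne_nil Ctl hw)
    simp only [List.length_append, List.length_replicate, List.length_map] at hlen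
    rcases h with rfl | ⟨b, rfl⟩ | ⟨x, rfl, k, hx⟩
    · simp only [List.length_cons, List.length_nil] at hlen
      omega
    · have := hM b
      simp only [List.length_append, List.length_replicate, List.length_cons,
        List.length_nil] at hlen
      omega
    · have h3 := List.append_cancel_left e'
      have h4 := List.map_injective_iff.2 (Option.some_injective _) h3
      rw [← h4] at hx
      exact hk k hx
  · intro hh
    let isR : ℕ → Prop := fun A => ∃ z, A = eN (.C z)
    let R : Set Pr := encR eN (encT i) '' ({inRule M z₀ pre} ∪ {p | CR Ctl p})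
    have mem_map_inl : ∀ {β : List (Nt K Z ⊕ Tt K Γ)} {B : ℕ},
        inl B ∈ β.map (Sum.map eN (encT i)) → ∃ C, inl C ∈ β ∧ eN C = B := by
      intro β B h
      rw [List.mem_map] at h
      obtain ⟨x, hx, h⟩ := h
      cases x with
      | inl C =>
        rw [Sum.map_inl, inl.injEq] at h
        exact ⟨C, hx, h⟩
      | inr a => simp at h
    refine absorb (eN .S, L₀) R isR ?_ ?_ ?_ ?_ _ rfl ?_
    · intro A β hA
      obtain ⟨⟨A', β'⟩, hq, he⟩ := (hL₀ _).1 hA
      simp only [encR, Prod.mk.injEq] at he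
      obtain ⟨rfl, rfl⟩ := he
      obtain ⟨h1, h2⟩ := er_nt M i hq
      refine ⟨?_, ?_⟩
      · rintro ⟨z, hz⟩
        exact h1 z (hN hz)
      · intro B hB
        obtain ⟨C, hC, rfl⟩ := mem_map_inl hB
        obtain ⟨h3, h4⟩ := h2 C hC
        refine ⟨?_, fun h => h3 (hN h)⟩
        rintro ⟨z, hz⟩
        exact h4 z (hN hz)
    · intro A β hA
      obtain ⟨⟨A', β'⟩, hq, he⟩ := hA
      simp only [encR, Prod.mk.injEq] at he
      obtain ⟨rfl, rfl⟩ := he
      obtain ⟨h1, h2⟩ := cr_nt Ctl M z₀ pre (A := A') (β := β') (by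
        rcases hq with h | h
        · exact Or.inr h
        · exact Or.inl h)
      refine ⟨?_, ?_⟩
      · rcases h1 with rfl | ⟨z, rfl⟩
        · exact Or.inl rfl
        · exact Or.inr ⟨z, rfl⟩
      · intro B hB
        obtain ⟨C, hC, rfl⟩ := mem_map_inl hB
        obtain ⟨h3, z, rfl⟩ := h2 C hC
        exact ⟨⟨z, rfl⟩, fun h => h3 (hN h)⟩
    · intro A β hA
      obtain ⟨⟨A', β'⟩, hq, he⟩ := hA
      simp only [encR, Prod.mk.injEq] at he
      obtain ⟨rfl, rfl⟩ := he
      rcases hq with h | h
      · simp only [Set.mem_singleton_iff, inRule, Prod.mk.injEq] at h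
        obtain ⟨rfl, rfl⟩ := h
        have e : ((List.replicate M none ++ pre.map some).map inr ++ [inl (.C z₀)]).map
            (Sum.map eN (encT i)) =
            ((List.replicate M none ++ pre.map some).map (encT i)).map inr ++
              [inl (eN (.C z₀))] := by
          simp
        rw [e]
        refine ⟨by simp, Or.inr ⟨_, _, rfl⟩, ?_⟩
        intro B hB
        have := congrArg List.length hB
        simp only [List.length_append, List.length_replicate, List.length_map, List.length_cons,
          List.length_nil] at this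
        omega
      · have h' : CR Ctl (A', β') := h
        cases h' with
        | last z a h =>
          refine ⟨by simp, Or.inl ⟨[encT i (some a)], rfl⟩, by simp⟩
        | step z a z' h =>
          refine ⟨by simp, Or.inr ⟨[encT i (some a)], eN (.C z'), rfl⟩, by simp⟩
    · intro x hx
      obtain ⟨v, rfl, hv⟩ := GenL.of_map (P := {inRule M z₀ pre} ∪ {p | CR Ctl p})
        (α := [inl .S]) eN (encT i) hN hx
      obtain ⟨w, rfl, hw⟩ := sem_control Ctl M z₀ pre hv
      have : ∃ k, run k (pre ++ w) [] = none := by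
        by_contra hcon
        push Not at hcon
        exact hh ⟨w, hw, hcon⟩
      obtain ⟨k, hk⟩ := this
      exact mem_Lang_iff.1 (lang0_mem M i eN L₀ hL₀ (complete_S i M hk))
    · intro p
      simp only [GP, List.mem_cons, List.mem_append]
      constructor
      · rintro (rfl | h | h)
        · exact Or.inr ⟨_, Or.inl rfl, rfl⟩
        · obtain ⟨q, hq, rfl⟩ := (hLR _).1 h
          exact Or.inr ⟨q, Or.inr hq, rfl⟩
        · exact Or.inl h
      · rintro (h | ⟨q, h | h, rfl⟩)
        · exact Or.inr (Or.inr h)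
        · rw [Set.mem_singleton_iff] at h
          subst h
          exact Or.inl rfl
        · exact Or.inr (Or.inl ((hLR _).2 ⟨q, h, rfl⟩))

include hL₀ hLR in
lemma lambdaFree_GP : LambdaFree (GP M z₀ pre i eN L₀ LR) := by
  intro p hp
  simp only [GP, List.mem_cons, List.mem_append] at hp
  rcases hp with rfl | h | h
  · simp [encR, inRule]
  · obtain ⟨q, hq, rfl⟩ := (hLR _).1 h
    cases hq <;> simp [encR]
  · obtain ⟨q, hq, rfl⟩ := (hL₀ _).1 h
    have hq' : ER K Γ Z i M q := hq
    cases hq' <;> simp [encR]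

include hL₀ in
lemma lambdaFree_G0 : LambdaFree (eN .S, L₀) := by
  intro p hp
  obtain ⟨q, hq, rfl⟩ := (hL₀ _).1 hp
  have hq' : ER K Γ Z i M q := hq
  cases hq' <;> simp [encR]

end main

end frame

lemma fam_mono {S : ℕ} {P Q : List Pr} (h : P ⊆ Q) : Fam (S, P) ⊆ Fam (S, Q) := by
  rintro L ⟨G', ⟨f, g, hf, hint⟩, rfl⟩
  exact ⟨G', ⟨f, g, hf, fun p hp => h (hint p hp)⟩, rfl⟩

/-- Summary: for a finite control there is a fixed grammar `G₀` such that family equivalence with
`G₀` is the complement of the halting problem. -/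
theorem exists_grammars {K Γ Z : Type} [DecidableEq K] [DecidableEq Γ] [Finite K] [Finite Γ]
    [Finite Z] (Ctl : Z → Act K Γ → Option Z → Prop) (z₀ : Z) :
    ∃ (cS : ℕ) (L₀ L : List Pr) (u : List (ℕ ⊕ ℕ)) (c : Act K Γ → ℕ) (v : List (ℕ ⊕ ℕ)),
      LambdaFree (cS, L₀) ∧ LambdaFree (cS, L ++ L₀) ∧ v ≠ [] ∧ ∀ pre : List (Act K Γ),
        (Fam (cS, (cS, u ++ (pre.map c).map inr ++ v) :: (L ++ L₀)) = Fam (cS, L₀) ↔
          ¬ Halts Ctl z₀ pre) := by
  classical
  obtain ⟨nA, ⟨eA⟩⟩ := Finite.exists_equiv_fin (Act K Γ)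
  obtain ⟨nN, ⟨eN'⟩⟩ := Finite.exists_equiv_fin (Nt K Z)
  let i : Act K Γ → ℕ := fun a => (eA a : ℕ)
  have hi : Function.Injective i := fun a b h => eA.injective (Fin.ext h)
  let eN : Nt K Z → ℕ := fun a => (eN' a : ℕ)
  have hN : Function.Injective eN := fun a b h => eN'.injective (Fin.ext h)
  let M := nA + 3
  have hM : ∀ a, i a + 3 ≤ M := fun a => by
    have := (eA a).isLt
    simp only [i, M]
    omega
  have hM3 : 3 ≤ M := by simp [M]
  let L₀ : List Pr := ((PE_finite (Z := Z) M i hM).image (encR eN (encT i))).toFinset.toList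
  have hL₀ : ∀ p, p ∈ L₀ ↔ ∃ q ∈ PE K Γ Z i M, encR eN (encT i) q = p := by
    intro p
    simp [L₀]
  let LR : List Pr := ((CR_finite Ctl).image (encR eN (encT i))).toFinset.toList
  have hLR : ∀ p, p ∈ LR ↔ ∃ q, CR Ctl q ∧ encR eN (encT i) q = p := by
    intro p
    simp [LR]
  have e : ∀ pre : List (Act K Γ), ((eN .S, (eN .S, List.replicate M (inr 0) ++
      (pre.map (fun a => i a + 1)).map inr ++ [inl (eN (.C z₀))]) :: (LR ++ L₀)) : Gram) =
        GP M z₀ pre i eN L₀ LR := by
    intro pre
    simp [GP, encR, inRule, encT]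
  refine ⟨eN .S, L₀, LR, List.replicate M (inr 0), fun a => i a + 1, [inl (eN (.C z₀))],
    lambdaFree_G0 M i eN L₀ hL₀, ?_, by simp, fun pre => ?_⟩
  · intro p hp
    refine lambdaFree_GP Ctl M z₀ [] i eN L₀ LR hL₀ hLR p ?_
    exact List.mem_cons_of_mem _ hp
  · rw [e]
    exact fam_eq_iff Ctl M z₀ pre i eN L₀ LR hi hN hM hM3 hL₀ hLR

end Pool.Agent.Helper88.GF
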