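import Mathlib
import Pool.Agent.Helper88.GF.Frame

set_option autoImplicit false

namespace Pool.Agent.Helper88.GF

open Turing

abbrev TS (K G Λ σ : Type) : Type := TM2.Stmt (fun _ : K => G) Λ σ

section mach

variable {K G Λ σ : Type}

/-- micro-steps of a multi-stack machine -/
inductive MCtl (M : Λ → TS K G Λ σ) : TS K G Λ σ × σ → Act K G → Option (TS K G Λ σ × σ) → Prop
  | push (k : K) (f : σ → G) (q : TS K G Λ σ) (v : σ) :
      MCtl M (.push k f q, v) (.push k (f v)) (some (q, v))
  | peek1 (k : K) (f : σ → Option G → σ) (q : TS K G Λ σ) (v : σ) (x : G) :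
      MCtl M (.peek k f q, v) (.peek k x) (some (q, f v (some x)))
  | peek0 (k : K) (f : σ → Option G → σ) (q : TS K G Λ σ) (v : σ) :
      MCtl M (.peek k f q, v) (.empty k) (some (q, f v none))
  | pop1 (k : K) (f : σ → Option G → σ) (q : TS K G Λ σ) (v : σ) (x : G) :
      MCtl M (.pop k f q, v) (.pop k x) (some (q, f v (some x)))
  | pop0 (k : K) (f : σ → Option G → σ) (q : TS K G Λ σ) (v : σ) :
      MCtl M (.pop k f q, v) (.empty k) (some (q, f v none))
  | load (a : σ → σ) (q : TS K G Λ σ) (v : σ) : MCtl M (.load a q, v) .nop (some (q, a v))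
  | branch (f : σ → Bool) (q₁ q₂ : TS K G Λ σ) (v : σ) :
      MCtl M (.branch f q₁ q₂, v) .nop (some (cond (f v) q₁ q₂, v))
  | goto (l : σ → Λ) (v : σ) : MCtl M (.goto l, v) .nop (some (M (l v), v))
  | halt (v : σ) : MCtl M (.halt, v) .nop none

variable [DecidableEq K]

/-- halting from a configuration -/
def HaltsFrom (M : Λ → TS K G Λ σ) (c : TM2.Cfg (fun _ : K => G) Λ σ) : Prop :=
  ∃ b, StateTransition.Reaches (TM2.step M) c b ∧ TM2.step M b = none

variable [DecidableEq G]

lemma valid_cons {a : Act K G} {w : List (Act K G)} {S : K → List G}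
    (h : ∀ k, run k (a :: w) (S k) ≠ none) :
    ∃ S' : K → List G, (∀ k, eff k a (S k) = some (S' k)) ∧ ∀ k, run k w (S' k) ≠ none := by
  have h1 : ∀ k, ∃ s, eff k a (S k) = some s ∧ run k w s ≠ none := by
    intro k
    have := h k
    rw [run_cons] at this
    cases hk : eff k a (S k) with
    | none => rw [hk] at this; simp at this
    | some s =>
      rw [hk, Option.bind_some] at this
      exact ⟨s, rfl, this⟩
  choose S' h2 h3 using h1
  exact ⟨S', h2, h3⟩

lemma valid_of_cons {a : Act K G} {w : List (Act K G)} {S S' : K → List G}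
    (h : ∀ k, eff k a (S k) = some (S' k)) (h' : ∀ k, run k w (S' k) ≠ none) :
    ∀ k, run k (a :: w) (S k) ≠ none := by
  intro k
  rw [run_cons, h k, Option.bind_some]
  exact h' k

lemma eff_push_iff {S S' : K → List G} {k₀ : K} {x : G} :
    (∀ k, eff k (.push k₀ x) (S k) = some (S' k)) ↔ S' = Function.update S k₀ (x :: S k₀) := by
  constructor
  · intro h
    funext k
    have := h k
    by_cases hk : k₀ = k
    · subst hk
      simp only [eff, if_true, Option.some.injEq] at this
      rw [Function.update_self, ← this]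
    · simp only [eff, if_neg hk, Option.some.injEq] at this
      rw [Function.update_of_ne (Ne.symm hk), ← this]
  · rintro rfl k
    by_cases hk : k₀ = k
    · subst hk
      simp [eff]
    · simp [eff, hk, Function.update_of_ne (Ne.symm hk)]

lemma eff_pop_iff {S S' : K → List G} {k₀ : K} {x : G} :
    (∀ k, eff k (.pop k₀ x) (S k) = some (S' k)) ↔
      (S k₀).head? = some x ∧ S' = Function.update S k₀ (S k₀).tail := by
  constructor
  · intro h
    have h0 := h k₀
    simp only [eff, if_true] at h0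
    split_ifs at h0 with hh
    refine ⟨hh, ?_⟩
    funext k
    have := h k
    by_cases hk : k₀ = k
    · subst hk
      rw [Function.update_self]
      simpa using h0.symm
    · simp only [eff, if_neg hk, Option.some.injEq] at this
      rw [Function.update_of_ne (Ne.symm hk), ← this]
  · rintro ⟨hh, rfl⟩ k
    by_cases hk : k₀ = k
    · subst hk
      simp [eff, hh]
    · simp [eff, hk, Function.update_of_ne (Ne.symm hk)]

lemma eff_peek_iff {S S' : K → List G} {k₀ : K} {x : G} :
    (∀ k, eff k (.peek k₀ x) (S k) = some (S' k)) ↔ (S k₀).head? = some x ∧ S' = S := by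
  constructor
  · intro h
    have h0 := h k₀
    simp only [eff, if_true] at h0
    split_ifs at h0 with hh
    refine ⟨hh, ?_⟩
    funext k
    have := h k
    by_cases hk : k₀ = k
    · subst hk
      simpa using h0.symm
    · simp only [eff, if_neg hk, Option.some.injEq] at this
      exact this.symm
  · rintro ⟨hh, rfl⟩ k
    by_cases hk : k₀ = k
    · subst hk
      simp [eff, hh]
    · simp [eff, hk]

lemma eff_empty_iff {S S' : K → List G} {k₀ : K} :
    (∀ k, eff k (.empty k₀) (S k) = some (S' k)) ↔ S k₀ = [] ∧ S' = S := by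
  constructor
  · intro h
    have h0 := h k₀
    simp only [eff, if_true] at h0
    split_ifs at h0 with hh
    refine ⟨hh, ?_⟩
    funext k
    have := h k
    by_cases hk : k₀ = k
    · subst hk
      simpa using h0.symm
    · simp only [eff, if_neg hk, Option.some.injEq] at this
      exact this.symm
  · rintro ⟨hh, rfl⟩ k
    by_cases hk : k₀ = k
    · subst hk
      simp [eff, hh]
    · simp [eff, hk]

lemma eff_nop_iff {S S' : K → List G} : (∀ k, eff k (.nop) (S k) = some (S' k)) ↔ S' = S := by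
  simp only [eff, Option.some.injEq]
  exact ⟨fun h => funext fun k => (h k).symm, fun h k => by rw [h]⟩

/-- soundness -/
lemma haltsFrom_of_path (M : Λ → TS K G Λ σ) {z : TS K G Λ σ × σ} {w : List (Act K G)}
    (h : CPath (MCtl M) z w) : ∀ S : K → List G, (∀ k, run k w (S k) ≠ none) →
      HaltsFrom M (TM2.stepAux z.1 z.2 S) := by
  induction h with
  | last z a h =>
    intro S _
    cases h with
    | halt v => exact ⟨_, Relation.ReflTransGen.refl, rfl⟩
  | step z a z' w h _ ih =>
    intro S hS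
    obtain ⟨S', h1, h2⟩ := valid_cons hS
    have h3 := ih S' h2
    cases h with
    | push k f q v =>
      rw [eff_push_iff] at h1
      subst h1
      exact h3
    | peek1 k f q v x =>
      rw [eff_peek_iff] at h1
      obtain ⟨h1, rfl⟩ := h1
      rw [← h1] at h3
      exact h3
    | peek0 k f q v =>
      rw [eff_empty_iff] at h1
      obtain ⟨h1, rfl⟩ := h1
      have : (S' k).head? = none := by rw [h1]; rfl
      rw [← this] at h3
      exact h3
    | pop1 k f q v x =>
      rw [eff_pop_iff] at h1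
      obtain ⟨h1, rfl⟩ := h1
      rw [← h1] at h3
      exact h3
    | pop0 k f q v =>
      rw [eff_empty_iff] at h1
      obtain ⟨h1, rfl⟩ := h1
      have e1 : (S' k).head? = none := by rw [h1]; rfl
      have e2 : Function.update S' k (S' k).tail = S' := by
        rw [h1, List.tail_nil, ← h1, Function.update_eq_self]
      rw [← e1] at h3
      show HaltsFrom M (TM2.stepAux q (f v (S' k).head?) (Function.update S' k (S' k).tail))
      rw [e2]
      exact h3
    | load a q v =>
      rw [eff_nop_iff] at h1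
      subst h1
      exact h3
    | branch f q₁ q₂ v =>
      rw [eff_nop_iff] at h1
      subst h1
      show HaltsFrom M (cond (f v) (TM2.stepAux q₁ v S') (TM2.stepAux q₂ v S'))
      cases hf : f v
      · simp only [hf, cond_false] at h3 ⊢
        exact h3
      · simp only [hf, cond_true] at h3 ⊢
        exact h3
    | goto l v =>
      rw [eff_nop_iff] at h1
      subst h1
      obtain ⟨b, hb, hb'⟩ := h3
      refine ⟨b, Relation.ReflTransGen.head ?_ hb, hb'⟩
      rfl

/-- existence of a valid path from a configuration -/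
def HasPath (M : Λ → TS K G Λ σ) : TM2.Cfg (fun _ : K => G) Λ σ → Prop
  | ⟨none, _, _⟩ => True
  | ⟨some l, v, S⟩ => ∃ w, CPath (MCtl M) (M l, v) w ∧ ∀ k, run k w (S k) ≠ none

lemma hasPath_aux (M : Λ → TS K G Λ σ) (q : TS K G Λ σ) : ∀ (v : σ) (S : K → List G),
    HasPath M (TM2.stepAux q v S) →
      ∃ w, CPath (MCtl M) (q, v) w ∧ ∀ k, run k w (S k) ≠ none := by
  induction q with
  | push k f q ih =>
    intro v S h
    obtain ⟨w, hw, hv⟩ := ih _ _ h
    exact ⟨_, .step _ _ _ _ (.push k f q v) hw, valid_of_cons (eff_push_iff.2 rfl) hv⟩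
  | peek k f q ih =>
    intro v S h
    obtain ⟨w, hw, hv⟩ := ih _ _ h
    cases hS : (S k).head? with
    | none =>
      rw [hS] at hw
      exact ⟨_, .step _ _ _ _ (.peek0 k f q v) hw,
        valid_of_cons (eff_empty_iff.2 ⟨List.head?_eq_none_iff.1 hS, rfl⟩) hv⟩
    | some x =>
      rw [hS] at hw
      exact ⟨_, .step _ _ _ _ (.peek1 k f q v x) hw,
        valid_of_cons (eff_peek_iff.2 ⟨hS, rfl⟩) hv⟩
  | pop k f q ih =>
    intro v S h
    obtain ⟨w, hw, hv⟩ := ih _ _ h
    cases hS : (S k).head? with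
    | none =>
      rw [hS] at hw
      have h0 : S k = [] := List.head?_eq_none_iff.1 hS
      refine ⟨_, .step _ _ _ _ (.pop0 k f q v) hw,
        valid_of_cons (eff_empty_iff.2 ⟨h0, ?_⟩) hv⟩
      rw [h0, List.tail_nil, ← h0, Function.update_eq_self]
    | some x =>
      rw [hS] at hw
      exact ⟨_, .step _ _ _ _ (.pop1 k f q v x) hw,
        valid_of_cons (eff_pop_iff.2 ⟨hS, rfl⟩) hv⟩
  | load a q ih =>
    intro v S h
    obtain ⟨w, hw, hv⟩ := ih _ _ h
    exact ⟨_, .step _ _ _ _ (.load a q v) hw, valid_of_cons (eff_nop_iff.2 rfl) hv⟩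
  | branch f q₁ q₂ ih₁ ih₂ =>
    intro v S h
    have h' : HasPath M (cond (f v) (TM2.stepAux q₁ v S) (TM2.stepAux q₂ v S)) := h
    have : ∃ w, CPath (MCtl M) (cond (f v) q₁ q₂, v) w ∧ ∀ k, run k w (S k) ≠ none := by
      cases hf : f v
      · rw [hf, cond_false] at h'
        exact ih₂ _ _ h'
      · rw [hf, cond_true] at h'
        exact ih₁ _ _ h'
    obtain ⟨w, hw, hv⟩ := this
    exact ⟨_, .step _ _ _ _ (.branch f q₁ q₂ v) hw, valid_of_cons (eff_nop_iff.2 rfl) hv⟩
  | goto l =>
    intro v S h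
    obtain ⟨w, hw, hv⟩ := h
    exact ⟨_, .step _ _ _ _ (.goto l v) hw, valid_of_cons (eff_nop_iff.2 rfl) hv⟩
  | halt =>
    intro v S _
    exact ⟨_, .last _ _ (.halt v), by intro k; simp [run, eff]⟩

lemma hasPath_of_halts (M : Λ → TS K G Λ σ) {c : TM2.Cfg (fun _ : K => G) Λ σ}
    (h : HaltsFrom M c) : HasPath M c := by
  obtain ⟨b, hb, hb'⟩ := h
  induction hb using Relation.ReflTransGen.head_induction_on with
  | refl =>
    obtain ⟨l, v, S⟩ := b
    cases l with
    | none => trivial
    | some l => simp [TM2.step] at hb'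
  | head hs _ ih =>
    rename_i a c _
    obtain ⟨l, v, S⟩ := a
    cases l with
    | none => trivial
    | some l =>
      simp only [TM2.step, Option.mem_def, Option.some.injEq] at hs
      subst hs
      exact hasPath_aux M _ _ _ ih

theorem halts_iff_path (M : Λ → TS K G Λ σ) (l : Λ) (v : σ) (S : K → List G) :
    HaltsFrom M ⟨some l, v, S⟩ ↔
      ∃ w, CPath (MCtl M) (M l, v) w ∧ ∀ k, run k w (S k) ≠ none := by
  constructor
  · exact hasPath_of_halts M
  · rintro ⟨w, hw, hv⟩
    obtain ⟨b, hb, hb'⟩ := haltsFrom_of_path M hw S hv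
    exact ⟨b, Relation.ReflTransGen.head rfl hb, hb'⟩

/-- the states of a finite control -/
def Zc (M : Λ → TS K G Λ σ) (S : Finset Λ) : Type :=
  {z : TS K G Λ σ × σ // ∃ l ∈ S, z.1 ∈ TM2.stmts₁ (M l)}

omit [DecidableEq K] [DecidableEq G] in
lemma zc_finite [Finite σ] (M : Λ → TS K G Λ σ) (S : Finset Λ) : Finite (Zc M S) := by
  classical
  have h1 : (⋃ l ∈ S, ((TM2.stmts₁ (M l) : Finset (TS K G Λ σ)) : Set (TS K G Λ σ))).Finite :=
    S.finite_toSet.biUnion fun l _ => Finset.finite_toSet _
  have h2 : {z : TS K G Λ σ × σ | ∃ l ∈ S, z.1 ∈ TM2.stmts₁ (M l)}.Finite := by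
    refine (h1.prod (Set.finite_univ (α := σ))).subset ?_
    rintro ⟨q, v⟩ ⟨l, hl, hq⟩
    refine ⟨?_, trivial⟩
    simp only [Set.mem_iUnion]
    exact ⟨l, hl, hq⟩
  exact h2.to_subtype

def FCtl (M : Λ → TS K G Λ σ) (S : Finset Λ) (z : Zc M S) (a : Act K G) (o : Option (Zc M S)) :
    Prop := MCtl M z.1 a (o.map Subtype.val)

omit [DecidableEq K] [DecidableEq G] in
lemma mctl_closed {M : Λ → TS K G Λ σ} {S : Finset Λ}
    (hS : ∀ q ∈ S, TM2.SupportsStmt S (M q)) {z z' : TS K G Λ σ × σ} {a : Act K G}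
    (h : MCtl M z a (some z')) (hz : ∃ l ∈ S, z.1 ∈ TM2.stmts₁ (M l)) :
    ∃ l ∈ S, z'.1 ∈ TM2.stmts₁ (M l) := by
  classical
  obtain ⟨l, hl, hq⟩ := hz
  have tr : ∀ q, q ∈ TM2.stmts₁ z.1 → ∃ l ∈ S, q ∈ TM2.stmts₁ (M l) :=
    fun q hq' => ⟨l, hl, TM2.stmts₁_trans hq hq'⟩
  cases h with
  | push k f q v => exact tr _ (by simp [TM2.stmts₁, TM2.stmts₁_self])
  | peek1 k f q v x => exact tr _ (by simp [TM2.stmts₁, TM2.stmts₁_self])
  | peek0 k f q v => exact tr _ (by simp [TM2.stmts₁, TM2.stmts₁_self])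
  | pop1 k f q v x => exact tr _ (by simp [TM2.stmts₁, TM2.stmts₁_self])
  | pop0 k f q v => exact tr _ (by simp [TM2.stmts₁, TM2.stmts₁_self])
  | load a q v => exact tr _ (by simp [TM2.stmts₁, TM2.stmts₁_self])
  | branch f q₁ q₂ v =>
    refine tr _ ?_
    cases f v <;> simp [TM2.stmts₁, TM2.stmts₁_self]
  | goto g v =>
    have hs := TM2.stmts₁_supportsStmt_mono hq (hS l hl)
    exact ⟨g v, hs v, TM2.stmts₁_self⟩

omit [DecidableEq K] [DecidableEq G] in
lemma fctl_path {M : Λ → TS K G Λ σ} {S : Finset Λ}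
    (hS : ∀ q ∈ S, TM2.SupportsStmt S (M q)) {z : TS K G Λ σ × σ} {w : List (Act K G)}
    (h : CPath (MCtl M) z w) :
    ∀ (hz : ∃ l ∈ S, z.1 ∈ TM2.stmts₁ (M l)), CPath (FCtl M S) ⟨z, hz⟩ w := by
  induction h with
  | last z a h =>
    intro hz
    exact .last _ _ h
  | step z a z' w h _ ih =>
    intro hz
    have hz' := mctl_closed hS h hz
    exact CPath.step (Ctl := FCtl M S) ⟨z, hz⟩ a ⟨z', hz'⟩ w h (ih hz')

omit [DecidableEq K] [DecidableEq G] in
lemma path_of_fctl {M : Λ → TS K G Λ σ} {S : Finset Λ} {z : Zc M S} {w : List (Act K G)}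
    (h : CPath (FCtl M S) z w) : CPath (MCtl M) z.1 w := by
  induction h with
  | last z a h => exact .last _ _ h
  | step z a z' w h _ ih => exact .step _ _ _ _ h ih

theorem halts_iff_fctl (M : Λ → TS K G Λ σ) (S : Finset Λ)
    (hS : ∀ q ∈ S, TM2.SupportsStmt S (M q)) (l : Λ) (hl : l ∈ S) (v : σ) (T : K → List G)
    (pre : List (Act K G)) (hpre : ∀ k, run k pre [] = some (T k)) :
    Halts (FCtl M S) ⟨(M l, v), l, hl, TM2.stmts₁_self⟩ pre ↔ HaltsFrom M ⟨some l, v, T⟩ := by
  rw [halts_iff_path]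
  have e : ∀ w k, run k (pre ++ w) [] = run k w (T k) := by
    intro w k
    rw [run_append, hpre k, Option.bind_some]
  constructor
  · rintro ⟨w, hw, hk⟩
    exact ⟨w, path_of_fctl hw, fun k => by rw [← e]; exact hk k⟩
  · rintro ⟨w, hw, hk⟩
    exact ⟨w, fctl_path hS hw _, fun k => by rw [e]; exact hk k⟩

lemma run_pushes (k₀ : K) (L s : List G) :
    run k₀ (L.map (Act.push k₀)) s = some (L.reverse ++ s) := by
  induction L generalizing s with
  | nil => rfl
  | cons x L ih =>
    rw [List.map_cons, run_cons, eff_push, Option.bind_some, ih]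
    simp

lemma run_pushes_ne {k₀ k : K} (hk : k₀ ≠ k) (L s : List G) :
    run k (L.map (Act.push k₀)) s = some s := by
  induction L generalizing s with
  | nil => rfl
  | cons x L ih =>
    have : eff k (Act.push k₀ x) s = some s := by simp [eff, hk]
    rw [List.map_cons, run_cons, this, Option.bind_some, ih]

end mach

end Pool.Agent.Helper88.GF
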