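import Mathlib
import Pool.Agent.Helper88.GF.Mach

set_option autoImplicit false

namespace Pool.Agent.Helper88.GF

open Turing Turing.PartrecToTM2

lemma bits_cons {n : ℕ} (hn : n ≠ 0) : n.bits = n.bodd :: n.div2.bits := by
  have h := Nat.bits_append_bit n.div2 n.bodd (by
    intro h
    have h2 := Nat.bit_bodd_div2 n
    rw [h] at h2
    cases hb : n.bodd with
    | true => rfl
    | false =>
      rw [hb] at h2
      exact absurd h2.symm (by simpa using hn))
  rwa [Nat.bit_bodd_div2] at h

lemma primrec_bits : Primrec Nat.bits := by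
  have h : Primrec₂ (fun (_ : Unit) (n : ℕ) => n.bits) := by
    refine Primrec.nat_strong_rec (fun (_ : Unit) (n : ℕ) => n.bits)
      (g := fun _ L => if L.length = 0 then some [] else
        (L[L.length.div2]?).map (fun t => L.length.bodd :: t)) ?_ ?_
    · have hl : Primrec (fun x : Unit × List (List Bool) => x.2.length) :=
        Primrec.list_length.comp Primrec.snd
      refine Primrec.ite (Primrec.eq.comp hl (Primrec.const 0)) (Primrec.const _) ?_
      refine Primrec.option_map (Primrec.list_getElem?.comp Primrec.snd
        (Primrec.nat_div2.comp hl)) ?_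
      exact Primrec.list_cons.comp (Primrec.nat_bodd.comp (hl.comp Primrec.fst)) Primrec.snd
    · intro _ n
      simp only [List.length_map, List.length_range]
      by_cases hn : n = 0
      · subst hn; simp
      · rw [if_neg hn]
        have hlt : n.div2 < n := by
          rw [Nat.div2_val]
          omega
        simp only [List.getElem?_map, List.getElem?_range hlt, Option.map_some]
        rw [← bits_cons hn]
  exact h.comp (Primrec.const ()) Primrec.id

lemma trNat_eq (n : ℕ) :
    trNat n = n.bits.map (fun b => cond b Γ'.bit1 Γ'.bit0) := by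
  induction n using Nat.strong_induction_on with
  | _ n ih =>
    by_cases hn : n = 0
    · subst hn; simp
    · have hlt : n.div2 < n := by
        rw [Nat.div2_val]
        omega
      rw [bits_cons hn, List.map_cons, ← ih _ hlt]
      have h2 := Nat.bit_bodd_div2 n
      have h3 : ((n : ℕ) : Num) = cond n.bodd Num.bit1 Num.bit0 ((n.div2 : ℕ) : Num) := by
        rw [← Num.ofNat'_eq, ← Num.ofNat'_eq]
        conv_lhs => rw [← h2]
        rw [Num.ofNat'_bit]
      unfold trNat
      rw [h3]
      have hpos : n.bodd = false → n.div2 ≠ 0 := by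
        intro hb h0
        rw [hb, h0] at h2
        exact hn (by simpa using h2.symm)
      cases hb : n.bodd with
      | true =>
        simp only [cond_true]
        cases ((n.div2 : ℕ) : Num) with
        | zero => rfl
        | pos p => rfl
      | false =>
        simp only [cond_false]
        have h0 := hpos hb
        cases hx : ((n.div2 : ℕ) : Num) with
        | zero =>
          exfalso
          apply h0
          have : ((n.div2 : ℕ) : Num) = ((0 : ℕ) : Num) := by rw [hx]; rfl
          exact_mod_cast this
        | pos p => rfl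

instance finK' : Finite K' := by
  refine Finite.of_injective (β := Fin 4) (fun k => match k with
    | .main => 0 | .rev => 1 | .aux => 2 | .stack => 3) ?_
  intro a b h
  cases a <;> cases b <;> simp_all

/-- the initial pushes -/
def pre (n : ℕ) : List (Act K' Γ') := (trList [n]).reverse.map (Act.push K'.main)

lemma computable_pre (c : Act K' Γ' → ℕ) :
    Primrec (fun n : ℕ => ((pre n).map c).map (Sum.inr : ℕ → ℕ ⊕ ℕ)) := by
  have e : ∀ n : ℕ, ((pre n).map c).map (Sum.inr : ℕ → ℕ ⊕ ℕ) =
      ((n.bits.map (fun b => cond b (c (.push K'.main Γ'.bit1)) (c (.push K'.main Γ'.bit0)))) ++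
        [c (.push K'.main Γ'.cons)]).reverse.map Sum.inr := by
    intro n
    unfold pre
    rw [trList, trList, trNat_eq]
    simp only [List.map_reverse, List.map_append, List.map_map, List.reverse_append, List.map_cons,
      List.map_nil]
    congr 2
    congr 1
    funext b
    cases b <;> rfl
  have h : Primrec (fun n : ℕ => ((n.bits.map (fun b => cond b (c (.push K'.main Γ'.bit1))
      (c (.push K'.main Γ'.bit0)))) ++ [c (.push K'.main Γ'.cons)]).reverse.map
        (Sum.inr : ℕ → ℕ ⊕ ℕ)) := by
    refine Primrec.list_map (Primrec.list_reverse.comp (Primrec.list_append.comp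
      (Primrec.list_map primrec_bits ?_) (Primrec.const _))) ?_
    · exact Primrec.cond Primrec.snd (Primrec.const _) (Primrec.const _)
    · exact Primrec.sumInr.comp Primrec.snd
  exact h.of_eq fun n => (e n).symm

lemma exists_univ : ∃ c : ToPartrec.Code, ∀ e : Nat.Partrec.Code,
    (c.eval [Encodable.encode e]).Dom ↔ (e.eval 0).Dom := by
  let f : ℕ →. ℕ := fun n => (Denumerable.ofNat Nat.Partrec.Code n).eval 0
  have hf : Partrec f :=
    Nat.Partrec.Code.eval_part.comp (Computable.ofNat Nat.Partrec.Code) (Computable.const 0)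
  obtain ⟨c, hc⟩ := ToPartrec.Code.exists_code (Nat.Partrec'.part_iff₁.2 hf)
  refine ⟨c, fun e => ?_⟩
  have := hc ⟨[Encodable.encode e], rfl⟩
  simp only at this
  rw [this]
  have e2 : f (List.Vector.head ⟨[Encodable.encode e], rfl⟩) = e.eval 0 := by
    show (Denumerable.ofNat Nat.Partrec.Code (Encodable.encode e)).eval 0 = e.eval 0
    rw [Denumerable.ofNat_encode]
  rw [e2]
  rfl

/-- There is a fixed grammar such that the set of grammars family equivalent to it is not
recursively enumerable, even for grammars that arise from another fixed grammar by adding a single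
production. -/
theorem main : ∃ (S : ℕ) (P₀ P₁ : List (ℕ × List (ℕ ⊕ ℕ))), LambdaFree (S, P₀) ∧
    LambdaFree (S, P₁) ∧ P₀ ⊆ P₁ ∧ ∀ p : Gram × Gram → Prop, REPred p →
      ∃ β : List (ℕ ⊕ ℕ), β ≠ [] ∧
        ¬ (p ((S, (S, β) :: P₁), (S, P₀)) ↔ Fam (S, (S, β) :: P₁) = Fam (S, P₀)) := by
  obtain ⟨c, hc⟩ := exists_univ
  have hsupp := tr_supports c Cont'.halt
  have hS : ∀ q ∈ codeSupp c Cont'.halt, TM2.SupportsStmt (codeSupp c Cont'.halt) (tr q) :=
    hsupp.2
  have hl : trNormal c Cont'.halt ∈ codeSupp c Cont'.halt := hsupp.1
  let M : Λ' → TS K' Γ' Λ' (Option Γ') := tr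
  have : Finite (Zc M (codeSupp c Cont'.halt)) := zc_finite M _
  obtain ⟨cS, L₀, L, u, d, v, hG₀, hG₁, hv, hG⟩ :=
    exists_grammars (FCtl M (codeSupp c Cont'.halt))
      ⟨(M (trNormal c Cont'.halt), none), trNormal c Cont'.halt, hl, TM2.stmts₁_self⟩
  refine ⟨cS, L₀, L ++ L₀, hG₀, hG₁, List.subset_append_right _ _, fun p hp => ?_⟩
  by_contra hcon
  push Not at hcon
  let F : ℕ → Gram := fun n => (cS, (cS, u ++ ((pre n).map d).map Sum.inr ++ v) :: (L ++ L₀))
  have hF : Primrec F := by
    refine Primrec.pair (Primrec.const _) (Primrec.list_cons.comp (Primrec.pair (Primrec.const _)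
      (Primrec.list_append.comp (Primrec.list_append.comp (Primrec.const _)
        (computable_pre d)) (Primrec.const _))) (Primrec.const _))
  have hre : REPred (fun e : Nat.Partrec.Code => p (F (Encodable.encode e), (cS, L₀))) := by
    have h1 : Computable (fun e : Nat.Partrec.Code => ((F (Encodable.encode e), (cS, L₀)) :
        Gram × Gram)) :=
      ((hF.comp Primrec.encode).pair (Primrec.const _)).to_comp
    exact Partrec.comp hp h1
  refine ComputablePred.halting_problem_not_re 0 (hre.of_eq fun e => ?_)
  have h2 := hG (pre (Encodable.encode e))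
  rw [hcon _ (by simp [hv]), h2, not_iff_not]
  rw [halts_iff_fctl M _ hS _ hl none (K'.elim (trList [Encodable.encode e]) [] [] []) _ ?_]
  · rw [← hc e]
    have h3 := tr_eval c [Encodable.encode e]
    have h4 : (StateTransition.eval (TM2.step tr) (init c [Encodable.encode e])).Dom ↔
        (c.eval [Encodable.encode e]).Dom := by
      rw [h3]; rfl
    rw [← h4, Part.dom_iff_mem]
    constructor
    · rintro ⟨b, hb⟩
      exact ⟨b, StateTransition.mem_eval.2 hb⟩
    · rintro ⟨b, hb⟩
      exact ⟨b, StateTransition.mem_eval.1 hb⟩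
  · intro k
    cases k with
    | main =>
      rw [pre, run_pushes, List.reverse_reverse, List.append_nil]
      rfl
    | rev => rw [pre, run_pushes_ne (by simp)]; rfl
    | aux => rw [pre, run_pushes_ne (by simp)]; rfl
    | stack => rw [pre, run_pushes_ne (by simp)]; rfl

end Pool.Agent.Helper88.GF
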